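import Mathlib.Order.Bounds.Basic
import Mathlib.Order.OrderIsoNat
import Mathlib.Data.Finset.Card
import Mathlib.Tactic

/-! Project DU: fixed points of order-preserving maps when there is no chain `d < d' < u < u'` with
`d ≤ s ≤ u'`, two lower points `d, d'` and two upper points `u, u'`. The data are self-dual. -/

set_option autoImplicit false

universe u

namespace Pool.Agent.Helper73.DU

/-- The data of a monotone map without fixed point: every point lies in exactly one of the sets `D`,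
`U`; the interpolation maps `be` on `U`, `cc` on `D` and `bb` on the pairs `x < w`, `x ∈ D`, `w ∈ U`;
a relation `r` whose classes the maps do not distinguish; and no chain `d < d' < u < u'` with
`d ≤ s ≤ u'`, `d, d' ∈ D` unrelated and `u, u' ∈ U` unrelated. -/
structure Dat (P : Type u) [PartialOrder P] where
  f : P → P
  s : P
  D : Set P
  U : Set P
  be : P → P
  cc : P → P
  bb : P → P → P
  r : P → P → Prop
  wf : WellFounded (fun a b : P => a < b)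
  wg : WellFounded (fun a b : P => b < a)
  hf : ∀ x y, x ≤ y → f x ≤ f y
  nle : ∀ x, ¬ x ≤ f x
  nge : ∀ x, ¬ f x ≤ x
  cov : ∀ y, y ∈ D ∨ y ∈ U
  dis : ∀ x ∈ D, x ∈ U → False
  rr : ∀ x, r x x
  rs : ∀ x y, r x y → r y x
  rf : ∀ x y, r x y → f x = f y
  rb : ∀ v ∈ U, ∀ w ∈ U, r v w → be v = be w
  rc : ∀ x ∈ D, ∀ y ∈ D, r x y → cc x = cc y
  bs : ∀ w ∈ U, be w ≤ s
  bw : ∀ w ∈ U, be w ≤ f w
  bm : ∀ v ∈ U, ∀ w ∈ U, v ≤ w → be v ≤ be w
  cs : ∀ x ∈ D, s ≤ cc x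
  cx : ∀ x ∈ D, f x ≤ cc x
  cm : ∀ x ∈ D, ∀ y ∈ D, x ≤ y → cc x ≤ cc y
  b1 : ∀ x ∈ D, ∀ w ∈ U, x < w → be w ≤ bb x w
  b2 : ∀ x ∈ D, ∀ w ∈ U, x < w → f x ≤ bb x w
  b3 : ∀ x ∈ D, ∀ w ∈ U, x < w → bb x w ≤ f w
  b4 : ∀ x ∈ D, ∀ w ∈ U, x < w → bb x w ≤ cc x
  b5 : ∀ x ∈ D, ∀ y ∈ D, r x y → ∀ v ∈ U, ∀ w ∈ U, x < v → y < w → v ≤ w → bb x v ≤ bb y w
  b6 : ∀ v ∈ U, ∀ w ∈ U, r v w → ∀ x ∈ D, ∀ y ∈ D, x < v → y < w → x ≤ y → bb x v ≤ bb y w
  nc : ∀ d ∈ D, ∀ d' ∈ D, ∀ u ∈ U, ∀ u' ∈ U, d < d' → d' < u → u < u' → d ≤ s → s ≤ u' →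
    ¬ r d d' → ¬ r u u' → False

variable {P : Type u} [PartialOrder P]

/-- the order dual -/
def Dat.dual (T : Dat P) : Dat Pᵒᵈ where
  f := T.f
  s := T.s
  D := T.U
  U := T.D
  be := T.cc
  cc := T.be
  bb := fun x w => T.bb w x
  r := T.r
  wf := T.wg
  wg := T.wf
  hf := fun x y h => T.hf y x h
  nle := T.nge
  nge := T.nle
  cov := fun y => (T.cov y).symm
  dis := fun x hx hx' => T.dis x hx' hx
  rr := T.rr
  rs := T.rs
  rf := T.rf
  rb := T.rc
  rc := T.rb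
  bs := T.cs
  bw := T.cx
  bm := fun v hv w hw h => T.cm w hw v hv h
  cs := T.bs
  cx := T.bw
  cm := fun v hv w hw h => T.bm w hw v hv h
  b1 := fun x hx w hw h => T.b4 w hw x hx h
  b2 := fun x hx w hw h => T.b3 w hw x hx h
  b3 := fun x hx w hw h => T.b2 w hw x hx h
  b4 := fun x hx w hw h => T.b1 w hw x hx h
  b5 := fun x hx y hy hr v hv w hw h1 h2 h3 =>
    T.b6 y hy x hx (T.rs _ _ hr) w hw v hv h2 h1 h3
  b6 := fun v hv w hw hr x hx y hy h1 h2 h3 =>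
    T.b5 w hw v hv (T.rs _ _ hr) y hy x hx h2 h1 h3
  nc := fun d hd d' hd' u hu u' hu' h1 h2 h3 h4 h5 h6 h7 =>
    T.nc u' hu' u hu d' hd' d hd h3 h2 h1 h5 h4 (fun h => h7 (T.rs _ _ h)) (fun h => h6 (T.rs _ _ h))

/-- the orbit of `v` under `a` stays in `U` until it reaches `d` in `D` -/
inductive Ex {Q : Type u} (U D : Set Q) (a : Q → Q) : Q → Q → Prop
  | one {v : Q} : v ∈ U → a v ∈ D → Ex U D a v (a v)
  | step {v d : Q} : v ∈ U → a v ∈ U → Ex U D a (a v) d → Ex U D a v d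

theorem Ex.memU {Q : Type u} {U D : Set Q} {a : Q → Q} {v d : Q} (h : Ex U D a v d) : v ∈ U := by
  cases h with
  | one h1 _ => exact h1
  | step h1 _ _ => exact h1

theorem Ex.memD {Q : Type u} {U D : Set Q} {a : Q → Q} {v d : Q} (h : Ex U D a v d) : d ∈ D := by
  induction h with
  | one _ h2 => exact h2
  | step _ _ _ ih => exact ih

theorem Ex.congr {Q : Type u} {U D : Set Q} {a : Q → Q} {v w d : Q} (h : Ex U D a v d)
    (hw : w ∈ U) (he : a v = a w) : Ex U D a w d := by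
  cases h with
  | one h1 h2 =>
    rw [he]
    exact Ex.one hw (he ▸ h2)
  | step h1 h2 h3 =>
    rw [he] at h2 h3
    exact Ex.step hw h2 h3

/-- the orbit of `v` under `be` leaves `U` at `d` -/
abbrev Dat.ExD (T : Dat P) (v d : P) : Prop := Ex T.U T.D T.be v d

theorem Dat.be_ne (T : Dat P) {v : P} (hv : v ∈ T.U) : T.be v ≠ v := by
  intro h
  apply T.nle v
  have h1 := T.bw v hv
  rwa [h] at h1

theorem Dat.exit_le (T : Dat P) {v d : P} (h : T.ExD v d) : T.be v ≤ v →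
    d ≤ T.be v ∧ ∃ u ∈ T.U, u ≤ v ∧ T.be u = d := by
  induction h with
  | @one v h1 h2 =>
    intro _
    exact ⟨le_rfl, v, h1, le_rfl, rfl⟩
  | @step v d h1 h2 _ ih =>
    intro h
    have h3 : T.be (T.be v) ≤ T.be v := T.bm _ h2 _ h1 h
    obtain ⟨i1, u, i2, i3, i4⟩ := ih h3
    exact ⟨i1.trans h3, u, i2, i3.trans h, i4⟩

theorem Dat.exit_le_s (T : Dat P) {v d : P} (h : T.ExD v d) (h' : T.be v ≤ v) : d ≤ T.s := by
  obtain ⟨-, u, hu, -, he⟩ := T.exit_le h h'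
  rw [← he]
  exact T.bs u hu

theorem Dat.exists_exit (T : Dat P) : ∀ v : P, v ∈ T.U → T.be v ≤ v → ∃ d, T.ExD v d := by
  intro v
  induction v using T.wf.induction with
  | _ v ih =>
    intro hv h
    have hlt : T.be v < v := lt_of_le_of_ne h (T.be_ne hv)
    rcases T.cov (T.be v) with hD | hU
    · exact ⟨T.be v, Ex.one hv hD⟩
    · obtain ⟨d, hd⟩ := ih (T.be v) hlt hU (T.bm _ hU _ hv h)
      exact ⟨d, Ex.step hv hU hd⟩

theorem Dat.cmp (T : Dat P) {v d : P} (h : T.ExD v d) : ∀ {w e : P}, T.ExD w e → w ≤ v →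
    T.be v ≤ w → d ≤ e ∨ e ≤ d := by
  induction h with
  | @one v h1 h2 =>
    intro w e hw h3 h4
    right
    have h5 : T.be w ≤ T.be v := T.bm _ hw.memU _ h1 h3
    exact (T.exit_le hw (h5.trans h4)).1.trans h5
  | @step v d h1 h2 hvd ih =>
    intro w e hw h3 h4
    have hwU : w ∈ T.U := hw.memU
    have h5 : T.be w ≤ T.be v := T.bm _ hwU _ h1 h3
    have h6 : T.be (T.be v) ≤ T.be w := T.bm _ h2 _ hwU h4
    cases hw with
    | one g1 g2 =>
      left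
      exact (T.exit_le hvd (h6.trans h5)).1.trans h6
    | step g1 g2 g3 => exact ih g3 h5 h6

theorem Dat.lt_bb (T : Dat P) {d v : P} (hd : d ∈ T.D) (hdv : d < v) (h : T.ExD v d)
    (ha : T.be v ≤ v) : d < T.bb d v := by
  have hv : v ∈ T.U := h.memU
  obtain ⟨-, u, hu, huv, hud⟩ := T.exit_le h ha
  refine lt_of_le_of_ne ?_ ?_
  · have h1 : T.be u ≤ T.bb d v := (T.bm u hu v hv huv).trans (T.b1 d hd v hv hdv)
    rwa [hud] at h1
  · intro he
    apply T.nge d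
    have h2 := T.b2 d hd v hv hdv
    rwa [← he] at h2

theorem Dat.f_ne_bb (T : Dat P) {d v : P} (hd : d ∈ T.D) (hv : v ∈ T.U) (hdv : d < v) :
    T.f d ≠ T.f (T.bb d v) := by
  intro h
  apply T.nge (T.bb d v)
  rw [← h]
  exact T.b2 d hd v hv hdv

theorem Dat.f_bb_ne (T : Dat P) {d v : P} (hd : d ∈ T.D) (hv : v ∈ T.U) (hdv : d < v) :
    T.f (T.bb d v) ≠ T.f v := by
  intro h
  apply T.nle (T.bb d v)
  rw [h]
  exact T.b3 d hd v hv hdv

theorem Dat.bb_lt (T : Dat P) {d v : P} (hd : d ∈ T.D) (hv : v ∈ T.U) (hdv : d < v)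
    (h : T.bb d v ≤ v) : T.bb d v < v := by
  refine lt_of_le_of_ne h ?_
  intro he
  apply T.f_bb_ne hd hv hdv
  rw [he]

/-- one step of the descent -/
theorem Dat.step (T : Dat P) {Y d v : P} (hY : Y ∈ T.U) (hsY : T.s ≤ Y) (hvY : v ≤ Y)
    (hdv : d < v) (h : T.ExD v d) (ha : T.be v ≤ v) (hm : T.bb d v ≤ v) (hU : T.bb d v ∈ T.U) :
    ∃ e, e < T.bb d v ∧ T.ExD (T.bb d v) e ∧ T.be (T.bb d v) ≤ T.bb d v ∧
      T.bb e (T.bb d v) ≤ T.bb d v := by
  have hd : d ∈ T.D := h.memD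
  have hv : v ∈ T.U := h.memU
  have h1 : d < T.bb d v := T.lt_bb hd hdv h ha
  have h2 : T.bb d v < v := T.bb_lt hd hv hdv hm
  have h4 : T.be v ≤ T.bb d v := T.b1 d hd v hv hdv
  have h3 : T.be (T.bb d v) ≤ T.bb d v := (T.bm _ hU v hv hm).trans h4
  obtain ⟨e, he⟩ := T.exists_exit (T.bb d v) hU h3
  have hem : e < T.bb d v :=
    lt_of_le_of_lt (T.exit_le he h3).1 (lt_of_le_of_ne h3 (T.be_ne hU))
  have hnY : ¬ T.r (T.bb d v) Y := by
    intro hr
    have h5 : T.f (T.bb d v) = T.f Y := T.rf _ _ hr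
    have h6 : T.f (T.bb d v) ≤ T.f v := T.hf _ _ hm
    have h7 : T.f v ≤ T.f Y := T.hf _ _ hvY
    rw [← h5] at h7
    exact T.f_bb_ne hd hv hdv (le_antisymm h6 h7)
  have hltY : T.bb d v < Y := lt_of_lt_of_le h2 hvY
  have hed : T.r e d := by
    by_contra hr
    rcases T.cmp h he hm h4 with hc | hc
    · rcases eq_or_lt_of_le hc with hc | hc
      · exact hr (hc ▸ T.rr _)
      · exact T.nc d hd e he.memD _ hU Y hY hc hem hltY (T.exit_le_s h ha) hsY
          (fun h8 => hr (T.rs _ _ h8)) hnY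
    · rcases eq_or_lt_of_le hc with hc | hc
      · exact hr (hc ▸ T.rr _)
      · exact T.nc e he.memD d hd _ hU Y hY hc h1 hltY (T.exit_le_s he h3) hsY hr hnY
  exact ⟨e, hem, he, h3, T.b5 e he.memD d hd hed _ hU v hv hem hdv hm⟩

theorem Dat.descent (T : Dat P) {Y : P} (hY : Y ∈ T.U) (hsY : T.s ≤ Y) :
    ∀ v : P, ∀ d : P, d < v → v < Y → T.f v ≠ T.f Y → T.ExD v d → T.be v ≤ v →
      T.bb d v ≤ v → False := by
  intro v
  induction v using T.wf.induction with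
  | _ v ih =>
    intro d hdv hvY hfv h ha hm
    have hd : d ∈ T.D := h.memD
    have hv : v ∈ T.U := h.memU
    have h1 : d < T.bb d v := T.lt_bb hd hdv h ha
    have h2 : T.bb d v < v := T.bb_lt hd hv hdv hm
    rcases T.cov (T.bb d v) with hD | hU
    · exact T.nc d hd _ hD v hv Y hY h1 h2 hvY (T.exit_le_s h ha) hsY
        (fun hr => T.f_ne_bb hd hv hdv (T.rf _ _ hr)) (fun hr => hfv (T.rf _ _ hr))
    · obtain ⟨e, h3, h4, h5, h6⟩ := T.step hY hsY hvY.le hdv h ha hm hU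
      refine ih _ h2 e h3 (h2.trans hvY) ?_ h4 h5 h6
      intro h7
      have h8 : T.f (T.bb d v) ≤ T.f v := T.hf _ _ hm
      have h9 : T.f v ≤ T.f Y := T.hf _ _ hvY.le
      rw [← h7] at h9
      exact T.f_bb_ne hd hv hdv (le_antisymm h8 h9)

/-- if the middle point is upper -/
theorem Dat.pair_upper (T : Dat P) {d Y : P} (hsY : T.s ≤ Y) (hdY : d < Y) (h : T.ExD Y d)
    (ha : T.be Y ≤ Y) (hm : T.bb d Y ≤ Y) (hU : T.bb d Y ∈ T.U) : False := by
  have hd : d ∈ T.D := h.memD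
  have hY : Y ∈ T.U := h.memU
  obtain ⟨e, h3, h4, h5, h6⟩ := T.step hY hsY le_rfl hdY h ha hm hU
  exact T.descent hY hsY _ e h3 (T.bb_lt hd hY hdY hm) (T.f_bb_ne hd hY hdY) h4 h5 h6

theorem Dat.pair (T : Dat P) {d Y : P} (hds : d ≤ T.s) (hsY : T.s ≤ Y) (hdY : d < Y)
    (h : T.ExD Y d) (ha : T.be Y ≤ Y) (h' : T.dual.ExD d Y) (ha' : T.dual.be d ≤ d) : False := by
  have hd : d ∈ T.D := h.memD
  have hY : Y ∈ T.U := h.memU
  have h1 : d < T.bb d Y := T.lt_bb hd hdY h ha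
  have h2 : T.bb d Y < Y := T.dual.lt_bb (d := Y) (v := d) hY hdY h' ha'
  rcases T.cov (T.bb d Y) with hD | hU
  · exact T.dual.pair_upper (d := Y) (Y := d) hds hdY h' ha' h1.le hD
  · exact T.pair_upper hsY hdY h ha h2.le hU

theorem Dat.upper (T : Dat P) (hs : T.s ∈ T.U) : False := by
  have h1 : T.be T.s ≤ T.s := T.bs _ hs
  obtain ⟨d, hd⟩ := T.exists_exit _ hs h1
  have hdD : d ∈ T.D := hd.memD
  have hds : d < T.s :=
    lt_of_le_of_lt (T.exit_le hd h1).1 (lt_of_le_of_ne h1 (T.be_ne hs))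
  have h2 : T.s ≤ T.cc d := T.cs d hdD
  have h3 : T.dual.be d ≤ d := show d ≤ T.cc d from hds.le.trans h2
  obtain ⟨Y, hY⟩ := T.dual.exists_exit d hdD h3
  have hYU : Y ∈ T.U := hY.memD
  have h4 : T.s ≤ Y := h2.trans (show T.cc d ≤ Y from (T.dual.exit_le hY h3).1)
  have h5 : T.be Y ≤ T.s := T.bs Y hYU
  have h6 : T.be Y ≤ Y := h5.trans h4
  have hdY : d < Y := lt_of_lt_of_le hds h4
  by_cases hrY : T.r T.s Y
  · exact T.pair hds.le h4 hdY (hd.congr hYU (T.rb _ hs _ hYU hrY)) h6 hY h3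
  · have h7 : T.s < Y := lt_of_le_of_ne h4 (fun he => hrY (he ▸ T.rr _))
    obtain ⟨e, he⟩ := T.exists_exit Y hYU h6
    have heD : e ∈ T.D := he.memD
    have hes : e < T.s := by
      refine lt_of_le_of_ne ((T.exit_le he h6).1.trans h5) ?_
      intro h8
      exact T.dis e heD (h8 ▸ hs)
    have hed : T.r e d := by
      by_contra hr
      rcases T.cmp he hd h4 h5 with hc | hc
      · rcases eq_or_lt_of_le hc with hc | hc
        · exact hr (hc ▸ T.rr _)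
        · exact T.nc e heD d hdD _ hs Y hYU hc hds h7 hes.le h4 hr hrY
      · rcases eq_or_lt_of_le hc with hc | hc
        · exact hr (hc ▸ T.rr _)
        · exact T.nc d hdD e heD _ hs Y hYU hc hes h7 hds.le h4
            (fun h8 => hr (T.rs _ _ h8)) hrY
    have hcc : T.cc d = T.cc e := (T.rc _ heD _ hdD hed).symm
    have hYe : T.dual.ExD e Y := Ex.congr hY heD hcc
    exact T.pair hes.le h4 (hes.trans_le h4) he h6 hYe
      (show e ≤ T.cc e from hes.le.trans (T.cs e heD))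

/-- there are no such data -/
theorem Dat.false (T : Dat P) : False := by
  rcases T.cov T.s with h | h
  · exact T.dual.upper h
  · exact T.upper h

end Pool.Agent.Helper73.DU
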