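import Pool.Agent.Helper73.DU.Core

/-! Project DU: no chain of three lower and two upper points, no chain of two lower and three upper
points. The data are self-dual. -/

set_option autoImplicit false

universe u

namespace Pool.Agent.Helper73.DU

/-- The data of a monotone map without fixed point, with no chain of type `D D D U U` or `D D U U U`
around `s` (up to the relation `r`). -/
structure Dat5 (P : Type u) [PartialOrder P] where
  f : P → P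
  s : P
  D : Set P
  U : Set P
  be : P → P
  cc : P → P
  bb : P → P → P
  r : P → P → Prop
  wf : WellFounded (fun a b : P => a < b)
  wg : WellFounded (fun a b : P => b < a)
  nle : ∀ x, ¬ x ≤ f x
  nge : ∀ x, ¬ f x ≤ x
  cov : ∀ y, y ∈ D ∨ y ∈ U
  dis : ∀ x ∈ D, x ∈ U → False
  rr : ∀ x, r x x
  rs : ∀ x y, r x y → r y x
  rt : ∀ x y z, r x y → r y z → r x z
  rf : ∀ x y, r x y → f x = f y
  rb : ∀ v ∈ U, ∀ w ∈ U, r v w → be v = be w
  rc : ∀ x ∈ D, ∀ y ∈ D, r x y → cc x = cc y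
  kD : ∀ x ∈ D, ∀ y ∈ D, ∀ z ∈ D, x ≤ y → y ≤ z → r x z → r x y
  kU : ∀ x ∈ U, ∀ y ∈ U, ∀ z ∈ U, x ≤ y → y ≤ z → r x z → r x y
  bs : ∀ w ∈ U, be w ≤ s
  bw : ∀ w ∈ U, be w ≤ f w
  bm : ∀ v ∈ U, ∀ w ∈ U, v ≤ w → be v ≤ be w
  cs : ∀ x ∈ D, s ≤ cc x
  cx : ∀ x ∈ D, f x ≤ cc x
  cm : ∀ x ∈ D, ∀ y ∈ D, x ≤ y → cc x ≤ cc y
  b1 : ∀ x ∈ D, ∀ w ∈ U, x < w → be w ≤ bb x w
  b2 : ∀ x ∈ D, ∀ w ∈ U, x < w → f x ≤ bb x w
  b3 : ∀ x ∈ D, ∀ w ∈ U, x < w → bb x w ≤ f w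
  b4 : ∀ x ∈ D, ∀ w ∈ U, x < w → bb x w ≤ cc x
  b5 : ∀ x ∈ D, ∀ y ∈ D, r x y → ∀ v ∈ U, ∀ w ∈ U, x < v → y < w → v ≤ w → bb x v ≤ bb y w
  b6 : ∀ v ∈ U, ∀ w ∈ U, r v w → ∀ x ∈ D, ∀ y ∈ D, x < v → y < w → x ≤ y → bb x v ≤ bb y w
  b7 : ∀ x ∈ D, ∀ y ∈ D, r x y → ∀ v ∈ U, ∀ w ∈ U, r v w → x < v → y < w → bb x v = bb y w
  n1 : ∀ a ∈ D, ∀ b ∈ D, ∀ c ∈ D, ∀ v ∈ U, ∀ w ∈ U, a ≤ b → b ≤ c → c ≤ v → v ≤ w → a ≤ s →
    s ≤ w → ¬ r a b → ¬ r b c → ¬ r v w → False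
  n2 : ∀ a ∈ D, ∀ b ∈ D, ∀ u ∈ U, ∀ v ∈ U, ∀ w ∈ U, a ≤ b → b ≤ u → u ≤ v → v ≤ w → a ≤ s →
    s ≤ w → ¬ r a b → ¬ r u v → ¬ r v w → False

variable {P : Type u} [PartialOrder P]

/-- the order dual -/
def Dat5.dual (T : Dat5 P) : Dat5 Pᵒᵈ where
  f := T.f
  s := T.s
  D := T.U
  U := T.D
  be := T.cc
  cc := T.be
  bb := fun x w => T.bb w x
  r := T.r
  wf := T.wg
  wg := T.wf
  nle := T.nge
  nge := T.nle
  cov := fun y => (T.cov y).symm
  dis := fun x hx hx' => T.dis x hx' hx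
  rr := T.rr
  rs := T.rs
  rt := T.rt
  rf := T.rf
  rb := T.rc
  rc := T.rb
  kD := fun x hx y hy z hz h1 h2 h3 =>
    T.rt _ _ _ h3 (T.kU z hz y hy x hx h2 h1 (T.rs _ _ h3))
  kU := fun x hx y hy z hz h1 h2 h3 =>
    T.rt _ _ _ h3 (T.kD z hz y hy x hx h2 h1 (T.rs _ _ h3))
  bs := T.cs
  bw := T.cx
  bm := fun v hv w hw h => T.cm w hw v hv h
  cs := T.bs
  cx := T.bw
  cm := fun v hv w hw h => T.bm w hw v hv h
  b1 := fun x hx w hw h => T.b4 w hw x hx h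
  b2 := fun x hx w hw h => T.b3 w hw x hx h
  b3 := fun x hx w hw h => T.b2 w hw x hx h
  b4 := fun x hx w hw h => T.b1 w hw x hx h
  b5 := fun x hx y hy hr v hv w hw h1 h2 h3 =>
    T.b6 y hy x hx (T.rs _ _ hr) w hw v hv h2 h1 h3
  b6 := fun v hv w hw hr x hx y hy h1 h2 h3 =>
    T.b5 w hw v hv (T.rs _ _ hr) y hy x hx h2 h1 h3
  b7 := fun x hx y hy hr v hv w hw hr' h1 h2 => T.b7 v hv w hw hr' x hx y hy hr h1 h2
  n1 := fun a ha b hb c hc v hv w hw h1 h2 h3 h4 h5 h6 h7 h8 h9 =>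
    T.n2 w hw v hv c hc b hb a ha h4 h3 h2 h1 h6 h5 (fun h => h9 (T.rs _ _ h))
      (fun h => h8 (T.rs _ _ h)) (fun h => h7 (T.rs _ _ h))
  n2 := fun a ha b hb u hu v hv w hw h1 h2 h3 h4 h5 h6 h7 h8 h9 =>
    T.n1 w hw v hv u hu b hb a ha h4 h3 h2 h1 h6 h5 (fun h => h9 (T.rs _ _ h))
      (fun h => h8 (T.rs _ _ h)) (fun h => h7 (T.rs _ _ h))

theorem Ex.unique {Q : Type u} {U D : Set Q} {a : Q → Q} (dis : ∀ x ∈ D, x ∈ U → False)
    {v d : Q} (h : Ex U D a v d) : ∀ {d' : Q}, Ex U D a v d' → d = d' := by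
  induction h with
  | one h1 h2 =>
    intro d' h'
    cases h' with
    | one _ _ => rfl
    | step _ g2 _ => exact (dis _ h2 g2).elim
  | step h1 h2 _ ih =>
    intro d' h'
    cases h' with
    | one _ g2 => exact (dis _ g2 h2).elim
    | step _ _ g3 => exact ih g3

/-- the orbit of `v` under `be` leaves `U` at `d` -/
abbrev Dat5.ExD (T : Dat5 P) (v d : P) : Prop := Ex T.U T.D T.be v d

theorem Dat5.be_ne (T : Dat5 P) {v : P} (hv : v ∈ T.U) : T.be v ≠ v := by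
  intro h
  apply T.nle v
  have h1 := T.bw v hv
  rwa [h] at h1

theorem Dat5.exit_le (T : Dat5 P) {v d : P} (h : T.ExD v d) : T.be v ≤ v →
    d ≤ T.be v ∧ ∃ u ∈ T.U, u ≤ v ∧ T.be u = d := by
  induction h with
  | @one v h1 h2 =>
    intro _
    exact ⟨le_rfl, v, h1, le_rfl, rfl⟩
  | @step v d h1 h2 _ ih =>
    intro h
    have h3 : T.be (T.be v) ≤ T.be v := T.bm _ h2 _ h1 h
    obtain ⟨i1, u, i2, i3, i4⟩ := ih h3
    exact ⟨i1.trans h3, u, i2, i3.trans h, i4⟩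

theorem Dat5.exit_le_s (T : Dat5 P) {v d : P} (h : T.ExD v d) (h' : T.be v ≤ v) : d ≤ T.s := by
  obtain ⟨-, u, hu, -, he⟩ := T.exit_le h h'
  rw [← he]
  exact T.bs u hu

theorem Dat5.exists_exit (T : Dat5 P) : ∀ v : P, v ∈ T.U → T.be v ≤ v → ∃ d, T.ExD v d := by
  intro v
  induction v using T.wf.induction with
  | _ v ih =>
    intro hv h
    have hlt : T.be v < v := lt_of_le_of_ne h (T.be_ne hv)
    rcases T.cov (T.be v) with hD | hU
    · exact ⟨T.be v, Ex.one hv hD⟩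
    · obtain ⟨d, hd⟩ := ih (T.be v) hlt hU (T.bm _ hU _ hv h)
      exact ⟨d, Ex.step hv hU hd⟩

theorem Dat5.cmp (T : Dat5 P) {v d : P} (h : T.ExD v d) : ∀ {w e : P}, T.ExD w e → w ≤ v →
    T.be v ≤ w → d ≤ e ∨ e ≤ d := by
  induction h with
  | @one v h1 h2 =>
    intro w e hw h3 h4
    right
    have h5 : T.be w ≤ T.be v := T.bm _ hw.memU _ h1 h3
    exact (T.exit_le hw (h5.trans h4)).1.trans h5
  | @step v d h1 h2 hvd ih =>
    intro w e hw h3 h4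
    have hwU : w ∈ T.U := hw.memU
    have h5 : T.be w ≤ T.be v := T.bm _ hwU _ h1 h3
    have h6 : T.be (T.be v) ≤ T.be w := T.bm _ h2 _ hwU h4
    cases hw with
    | one g1 g2 =>
      left
      exact (T.exit_le hvd (h6.trans h5)).1.trans h6
    | step g1 g2 g3 => exact ih g3 h5 h6

theorem Dat5.f_ne_bb (T : Dat5 P) {d v : P} (hd : d ∈ T.D) (hv : v ∈ T.U) (hdv : d < v) :
    ¬ T.r d (T.bb d v) := by
  intro h
  apply T.nge (T.bb d v)
  rw [← T.rf _ _ h]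
  exact T.b2 d hd v hv hdv

theorem Dat5.f_bb_ne (T : Dat5 P) {d v : P} (hd : d ∈ T.D) (hv : v ∈ T.U) (hdv : d < v) :
    ¬ T.r (T.bb d v) v := by
  intro h
  apply T.nle (T.bb d v)
  rw [T.rf _ _ h]
  exact T.b3 d hd v hv hdv

theorem Dat5.bb_lt (T : Dat5 P) {d v : P} (hd : d ∈ T.D) (hv : v ∈ T.U) (hdv : d < v)
    (h : T.bb d v ≤ v) : T.bb d v < v := by
  refine lt_of_le_of_ne h ?_
  intro he
  apply T.f_bb_ne hd hv hdv
  rw [he]
  exact T.rr _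

theorem Dat5.lt_of_le_bb (T : Dat5 P) {d v : P} (hd : d ∈ T.D) (hv : v ∈ T.U) (hdv : d < v)
    (h : d ≤ T.bb d v) : d < T.bb d v := by
  refine lt_of_le_of_ne h ?_
  intro he
  apply T.f_ne_bb hd hv hdv
  rw [← he]
  exact T.rr _

theorem Dat5.lt_bb (T : Dat5 P) {d v : P} (hd : d ∈ T.D) (hdv : d < v) (h : T.ExD v d)
    (ha : T.be v ≤ v) : d < T.bb d v :=
  T.lt_of_le_bb hd h.memU hdv ((T.exit_le h ha).1.trans (T.b1 d hd v h.memU hdv))

theorem Dat5.mono (T : Dat5 P) {x y v w : P} (hx : x ∈ T.D) (hy : y ∈ T.D) (hv : v ∈ T.U)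
    (hw : w ∈ T.U) (h1 : x < v) (h2 : y < w) (h3 : x ≤ y) (h4 : v ≤ w) : T.bb x v ≤ T.bb y w :=
  (T.b5 x hx x hx (T.rr _) v hv w hw h1 (h1.trans_le h4) h4).trans
    (T.b6 w hw w hw (T.rr _) x hx y hy (h1.trans_le h4) h2 h3)

theorem Dat5.lt_DU (T : Dat5 P) {x w : P} (hx : x ∈ T.D) (hw : w ∈ T.U) (h : x ≤ w) : x < w :=
  lt_of_le_of_ne h (fun he => T.dis x hx (he ▸ hw))

/-- no descent inside `U` with an upper point above -/
theorem Dat5.down (T : Dat5 P) {a : P} (ha : a ∈ T.U) (hsa : T.s ≤ a) :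
    ∀ t e : P, T.ExD t e → T.be t ≤ t → t ≤ a → ¬ T.r t a → e < t → T.bb e t ≤ t →
      T.bb e t ∈ T.U → False := by
  intro t
  induction t using T.wf.induction with
  | _ t ih =>
    intro e he hbt hta hra het hle hU
    have heD : e ∈ T.D := he.memD
    have htU : t ∈ T.U := he.memU
    have h1 : e < T.bb e t := T.lt_bb heD het he hbt
    have h2 : T.bb e t < t := T.bb_lt heD htU het hle
    have h4 : T.be t ≤ T.bb e t := T.b1 e heD t htU het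
    have h3 : T.be (T.bb e t) ≤ T.bb e t := (T.bm _ hU t htU hle).trans h4
    have hrt : ¬ T.r (T.bb e t) t := T.f_bb_ne heD htU het
    obtain ⟨e', he'⟩ := T.exists_exit _ hU h3
    have he'D : e' ∈ T.D := he'.memD
    have h5 : e' < T.bb e t :=
      lt_of_le_of_lt (T.exit_le he' h3).1 (lt_of_le_of_ne h3 (T.be_ne hU))
    have hr : T.r e' e := by
      by_contra hr
      rcases T.cmp he he' hle h4 with hc | hc
      · exact T.n2 e heD e' he'D _ hU t htU a ha hc h5.le hle hta (T.exit_le_s he hbt) hsa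
          (fun h => hr (T.rs _ _ h)) hrt hra
      · exact T.n2 e' he'D e heD _ hU t htU a ha hc h1.le hle hta (T.exit_le_s he' h3) hsa
          hr hrt hra
    have h6 : T.bb e' (T.bb e t) ≤ T.bb e t := T.b5 e' he'D e heD hr _ hU t htU h5 het hle
    rcases T.cov (T.bb e' (T.bb e t)) with hD' | hU'
    · exact T.n2 e' he'D _ hD' _ hU t htU a ha (T.lt_bb he'D h5 he' h3).le h6 hle hta
        (T.exit_le_s he' h3) hsa (T.f_ne_bb he'D hU h5) hrt hra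
    · exact ih _ h2 e' he' h3 (hle.trans hta)
        (fun h => hrt (T.kU _ hU t htU a ha hle hta h)) h5 h6 hU'

theorem Dat5.keyK (T : Dat5 P) {a b v Y : P} (ha : a ∈ T.D) (hb : b ∈ T.D) (hab : a ≤ b)
    (hr : ¬ T.r a b) (has : a ≤ T.s) (hv : v ∈ T.U) (hbv : b < v) (hY : T.dual.ExD b Y)
    (hcb : b ≤ T.cc b) (h1 : v ≤ T.bb b Y) (h2 : b ≤ T.bb b v) : False := by
  have hYU : Y ∈ T.U := hY.memD
  have hcY : T.cc b ≤ Y := (T.dual.exit_le hY hcb).1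
  have hsY : T.s ≤ Y := T.dual.exit_le_s hY hcb
  have hbY : b < Y := T.lt_DU hb hYU (hcb.trans hcY)
  have htY : T.bb b Y ≤ Y := (T.b4 b hb Y hYU hbY).trans hcY
  have htr : ¬ T.r (T.bb b Y) Y := T.f_bb_ne hb hYU hbY
  rcases T.cov (T.bb b Y) with hD | hU
  · exact T.dual.down (a := a) ha has b Y hY hcb hab (fun h => hr (T.rs _ _ h)) hbY
      (hbv.le.trans h1) hD
  · have hbt : b < T.bb b Y := hbv.trans_le h1
    by_cases hvt : T.r v (T.bb b Y)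
    · have he : T.bb b (T.bb b Y) = T.bb b v :=
        T.b7 b hb b hb (T.rr _) _ hU v hv (T.rs _ _ hvt) hbt hbv
      have h3 : T.bb b v ≤ T.bb b Y :=
        T.b5 b hb b hb (T.rr _) v hv Y hYU hbv hbY (h1.trans htY)
      have h4 : T.bb b (T.bb b Y) ≤ T.bb b Y := by rw [he]; exact h3
      have h5 : b ≤ T.bb b (T.bb b Y) := by rw [he]; exact h2
      rcases T.cov (T.bb b (T.bb b Y)) with hD' | hU'
      · exact T.n1 a ha b hb _ hD' _ hU Y hYU hab h5 h4 htY has hsY hr (T.f_ne_bb hb hU hbt) htr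
      · exact T.n2 a ha b hb _ hU' _ hU Y hYU hab h5 h4 htY has hsY hr (T.f_bb_ne hb hU hbt) htr
    · exact T.n2 a ha b hb v hv _ hU Y hYU hab hbv.le h1 htY has hsY hr hvt htr

theorem Dat5.keyM (T : Dat5 P) {a b v Y Yb : P} (ha : a ∈ T.D) (hb : b ∈ T.D) (hab : a ≤ b)
    (hr : ¬ T.r a b) (has : a ≤ T.s) (hv : v ∈ T.U) (hbv : b < v) (hYU : Y ∈ T.U)
    (hsY : T.s ≤ Y) (hvY : v ≤ Y) (hrv : ¬ T.r v Y) (hYb : T.dual.ExD b Yb)
    (hcb : b ≤ T.cc b) (hc : Yb ≤ Y ∨ Y ≤ Yb) (hvb : v ≤ Yb) (h1 : v ≤ T.bb b Y)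
    (h2 : b ≤ T.bb b v) : False := by
  have hYbU : Yb ∈ T.U := hYb.memD
  have hcY : T.cc b ≤ Yb := (T.dual.exit_le hYb hcb).1
  have hsYb : T.s ≤ Yb := T.dual.exit_le_s hYb hcb
  have hbYb : b < Yb := hbv.trans_le hvb
  have hbY : b < Y := hbv.trans_le hvY
  by_cases h : T.r Yb Y
  · have he : T.bb b Yb = T.bb b Y := T.b7 b hb b hb (T.rr _) Yb hYbU Y hYU h hbYb hbY
    exact T.keyK ha hb hab hr has hv hbv hYb hcb (by rw [he]; exact h1) h2
  · by_cases h3 : T.r v Yb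
    · have hle : Yb ≤ Y := by
        rcases hc with hc | hc
        · exact hc
        · exact (hrv (T.kU v hv Y hYU Yb hYbU hvY hc h3)).elim
      have htb : T.bb b Y ≤ Yb := (T.b4 b hb Y hYU hbY).trans hcY
      have htr : ¬ T.r (T.bb b Y) Y := T.f_bb_ne hb hYU hbY
      have hbt : b < T.bb b Y := hbv.trans_le h1
      rcases T.cov (T.bb b Y) with hD | hU
      · exact T.n1 a ha b hb _ hD Yb hYbU Y hYU hab hbt.le htb hle has hsY hr
          (T.f_ne_bb hb hYU hbY) h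
      · have hvt : T.r v (T.bb b Y) := T.kU v hv _ hU Yb hYbU h1 htb h3
        have he : T.bb b (T.bb b Y) = T.bb b v :=
          T.b7 b hb b hb (T.rr _) _ hU v hv (T.rs _ _ hvt) hbt hbv
        have h4 : T.bb b (T.bb b Y) ≤ T.bb b Y := by
          rw [he]
          exact T.b5 b hb b hb (T.rr _) v hv Y hYU hbv hbY hvY
        have h5 : b ≤ T.bb b (T.bb b Y) := by rw [he]; exact h2
        rcases T.cov (T.bb b (T.bb b Y)) with hD' | hU'
        · exact T.n1 a ha b hb _ hD' _ hU Y hYU hab h5 h4 (htb.trans hle) has hsY hr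
            (T.f_ne_bb hb hU hbt) htr
        · exact T.n2 a ha b hb _ hU' _ hU Y hYU hab h5 h4 (htb.trans hle) has hsY hr
            (T.f_bb_ne hb hU hbt) htr
    · rcases hc with hc | hc
      · exact T.n2 a ha b hb v hv Yb hYbU Y hYU hab hbv.le hvb hc has hsY hr h3 h
      · exact T.n2 a ha b hb v hv Y hYU Yb hYbU hab hbv.le hvY hc has hsYb hr hrv
          (fun h' => h (T.rs _ _ h'))

end Pool.Agent.Helper73.DU
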