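import Pool.Agent.Helper73.DU.Pair5

/-! Project DU: conclusion for the system without chains `D D D U U` and `D D U U U`. -/

set_option autoImplicit false

universe u

namespace Pool.Agent.Helper73.DU

variable {P : Type u} [PartialOrder P]

/-- there is a core pair -/
theorem Dat5.exists_core (T : Dat5 P) (hs : T.s ∈ T.U) :
    ∃ d Y : P, T.ExD Y d ∧ T.dual.ExD d Y ∧ d ≤ T.s ∧ T.s ≤ Y ∧
      (T.r T.s Y ∨ ∃ d0 Y0 : P, T.ExD T.s d0 ∧ T.dual.ExD d0 Y0 ∧ (T.r d0 d ∨ T.r Y0 Y)) := by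
  have h1 : T.be T.s ≤ T.s := T.bs _ hs
  obtain ⟨d0, hd0⟩ := T.exists_exit _ hs h1
  have hd0D : d0 ∈ T.D := hd0.memD
  have hd0s : d0 ≤ T.s := T.exit_le_s hd0 h1
  have hc0 : d0 ≤ T.cc d0 := hd0s.trans (T.cs d0 hd0D)
  obtain ⟨Y0, hY0⟩ := T.dual.exists_exit d0 hd0D hc0
  have hY0U : Y0 ∈ T.U := hY0.memD
  have hsY0 : T.s ≤ Y0 := T.dual.exit_le_s hY0 hc0
  by_cases hrs : T.r T.s Y0
  · exact ⟨d0, Y0, hd0.congr hY0U (T.rb _ hs _ hY0U hrs), hY0, hd0s, hsY0, Or.inl hrs⟩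
  have h2 : T.be Y0 ≤ T.s := T.bs Y0 hY0U
  obtain ⟨d1, hd1⟩ := T.exists_exit Y0 hY0U (h2.trans hsY0)
  have hd1D : d1 ∈ T.D := hd1.memD
  have hd1s : d1 ≤ T.s := T.exit_le_s hd1 (h2.trans hsY0)
  by_cases hr : T.r d0 d1
  · exact ⟨d1, Y0, hd1, Ex.congr hY0 hd1D (T.rc _ hd0D _ hd1D hr), hd1s, hsY0,
      Or.inr ⟨d0, Y0, hd0, hY0, Or.inl hr⟩⟩
  rcases T.cmp hd1 hd0 hsY0 h2 with hc | hc
  · -- `d1 ≤ d0`: impossible
    exfalso
    have h3 : d0 ≤ T.be Y0 := (T.exit_le hd0 h1).1.trans (T.bm _ hs _ hY0U hsY0)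
    cases hd1 with
    | one g1 g2 => exact hr ((le_antisymm h3 hc) ▸ T.rr _)
    | step g1 g2 g3 =>
      by_cases hr2 : T.r (T.be Y0) T.s
      · have h4 : T.ExD T.s d1 := Ex.congr g3 hs (T.rb _ g2 _ hs hr2)
        exact hr ((Ex.unique T.dis hd0 h4) ▸ T.rr _)
      · exact T.n2 d1 hd1D d0 hd0D _ g2 T.s hs Y0 hY0U hc h3 h2 hsY0 hd1s hsY0
          (fun h => hr (T.rs _ _ h)) hr2 hrs
  · have hc1 : d1 ≤ T.cc d1 := hd1s.trans (T.cs d1 hd1D)
    obtain ⟨Y1, hY1⟩ := T.dual.exists_exit d1 hd1D hc1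
    have hY1U : Y1 ∈ T.U := hY1.memD
    have hsY1 : T.s ≤ Y1 := T.dual.exit_le_s hY1 hc1
    have hr1 : T.r Y0 Y1 := by
      by_contra hr1
      have hcomp := T.dual.cmp hY0 hY1 (show d0 ≤ d1 from hc) (hd1s.trans (T.cs d0 hd0D))
      have hrs1 : T.r T.s Y1 := by
        by_contra hh
        rcases hcomp with h | h
        · exact T.n2 d0 hd0D d1 hd1D T.s hs Y1 hY1U Y0 hY0U hc hd1s hsY1 h hd0s hsY0 hr hh
            (fun h => hr1 (T.rs _ _ h))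
        · exact T.n2 d0 hd0D d1 hd1D T.s hs Y0 hY0U Y1 hY1U hc hd1s hsY0 h hd0s hsY1 hr hrs hr1
      have hle : @LE.le P _ Y1 Y0 := by
        rcases hcomp with h | h
        · exact h
        · exact (hrs (T.kU T.s hs Y0 hY0U Y1 hY1U hsY0 h hrs1)).elim
      have hcY1 : T.cc d1 ≤ Y1 := (T.dual.exit_le hY1 hc1).1
      have hcc : T.cc d0 ≤ T.cc d1 := T.cm d0 hd0D d1 hd1D hc
      have hY0' : Ex T.D T.U T.cc d0 Y0 := hY0
      cases hY0' with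
      | one g1 g2 => exact hr1 ((le_antisymm hle (hcc.trans hcY1)) ▸ T.rr _)
      | step g1 g2 g3 =>
        by_cases hr2 : T.r d1 (T.cc d0)
        · have h4 : Ex T.D T.U T.cc d1 Y0 := Ex.congr g3 hd1D (T.rc _ hd1D _ g2 hr2).symm
          have h5 : Y0 = Y1 := Ex.unique (fun x hx hx' => T.dis x hx' hx) h4 hY1
          exact hr1 (h5 ▸ T.rr _)
        · exact T.n1 d0 hd0D d1 hd1D _ g2 Y1 hY1U Y0 hY0U hc (hd1s.trans (T.cs d0 hd0D))
            (hcc.trans hcY1) hle hd0s hsY0 hr hr2 (fun h => hr1 (T.rs _ _ h))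
    exact ⟨d1, Y1, hd1.congr hY1U (T.rb _ hY0U _ hY1U hr1), hY1, hd1s, hsY1,
      Or.inr ⟨d0, Y0, hd0, hY0, Or.inr hr1⟩⟩

theorem Dat5.upper (T : Dat5 P) (hs : T.s ∈ T.U) : False := by
  obtain ⟨d, Y, hd, hY, hds, hsY, hinfo⟩ := T.exists_core hs
  have hdD : d ∈ T.D := hd.memD
  have hYU : Y ∈ T.U := hd.memU
  have hb : T.be Y ≤ Y := (T.bs Y hYU).trans hsY
  have hc : d ≤ T.cc d := hds.trans (T.cs d hdD)
  rcases T.cov (T.bb d Y) with hD | hU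
  · obtain ⟨Ys, Ds, h1, h2, h3, h4, h5, h6, h7, h8, h9, h10⟩ :=
      T.dual.corePair (d := Y) (Y := d) hY hc hd hb hsY hds hD
    have h2' : T.ExD Ys Ds := h2
    have h1' : Ex T.D T.U T.cc (T.bb d Y) Ys := h1
    have hYsU : Ys ∈ T.U := h2'.memU
    have hDsD : Ds ∈ T.D := h2'.memD
    have h7' : T.bb d Ys ∈ T.D := h7
    have h8' : T.r (T.bb d Ys) (T.bb d Y) := h8
    have h9' : T.r (T.bb d Ys) Ds := h9
    have hYs : T.r Y T.s := by
      rcases h10 with h | h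
      · exact h.2
      · exact (T.dis _ h.1 hs).elim
    have hYYs : Y ≤ Ys := h3
    have hsYs : T.s ≤ Ys := hsY.trans hYYs
    have hbYs : T.be Ys ≤ Ys := (T.bs Ys hYsU).trans hsYs
    have hDss : @LE.le P _ Ds T.s := T.exit_le_s h2' hbYs
    have hcDs : @LE.le P _ Ds (T.cc Ds) := hDss.trans (T.cs Ds hDsD)
    have hrD : T.r (T.bb d Y) Ds := T.rt _ _ _ (T.rs _ _ h8') h9'
    have h1'' : Ex T.D T.U T.cc Ds Ys := Ex.congr h1' hDsD (T.rc _ hD _ hDsD hrD)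
    rcases T.cov (T.bb Ds Ys) with hD2 | hU2
    · obtain ⟨Y3, D3, k1, k2, k3, k4, k5, k6, k7, k8, k9, k10⟩ :=
        T.dual.corePair (d := Ys) (Y := Ds) h1'' hcDs h2' hbYs hsYs hDss hD2
      rcases k10 with h | h
      · exact h4 (T.rt _ _ _ h.2 (T.rs _ _ hYs))
      · exact (T.dis _ h.1 hs).elim
    · obtain ⟨e2, Y3, k1, k2, k3, k4, k5, k6, k7, k8, k9, k10⟩ :=
        T.corePair (d := Ds) (Y := Ys) h2' hbYs h1'' hcDs hDss hsYs hU2
      rcases k10 with h | h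
      · exact T.dis _ h.1 hs
      · have q1 : T.r T.s (T.bb Ds Ys) := T.rt _ _ _ h.2 (T.rt _ _ _ (T.rs _ _ k9) k8)
        have q2 : T.r Y (T.bb Ds Ys) := T.rt _ _ _ hYs q1
        have q3 : T.ExD Y e2 := Ex.congr k1 hYU (T.rb _ hYU _ hU2 q2).symm
        have q4 : d = e2 := Ex.unique T.dis hd q3
        rw [← q4] at k7
        exact T.dis _ h7' k7
  · obtain ⟨e, Ye, h1, h2, h3, h4, h5, h6, h7, h8, h9, h10⟩ :=
      T.corePair hd hb hY hc hds hsY hU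
    rcases h10 with h | h
    · exact T.dis _ h.1 hs
    · have q1 : T.r T.s (T.bb d Y) := T.rt _ _ _ h.2 (T.rt _ _ _ (T.rs _ _ h9) h8)
      have q2 : T.ExD T.s e := Ex.congr h1 hs (T.rb _ hs _ hU q1).symm
      rcases hinfo with hi | ⟨d0, Y0, i1, i2, i3⟩
      · exact h6 (T.rt _ _ _ (T.rs _ _ h.2) hi)
      · have q3 : d0 = e := Ex.unique T.dis i1 q2
        rcases i3 with i3 | i3
        · rw [q3] at i3
          exact h4 i3
        · rw [q3] at i2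
          have q4 : Y0 = Ye := Ex.unique (fun x hx hx' => T.dis x hx' hx) i2 h2
          rw [q4] at i3
          exact h6 i3

/-- there are no such data -/
theorem Dat5.false (T : Dat5 P) : False := by
  rcases T.cov T.s with h | h
  · exact T.dual.upper h
  · exact T.upper h

end Pool.Agent.Helper73.DU
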