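import Pool.Agent.Helper73.DU.Core

/-! Project DU: the theorem for maps, its order dual and the case of a special element. -/

set_option autoImplicit false

universe u

namespace Pool.Agent.Helper73.DU

theorem wf_lt {P : Type u} [PartialOrder P] (n : ℕ)
    (hn : ∀ c : Finset P, IsChain (· ≤ ·) (c : Set P) → c.card ≤ n) :
    WellFounded (fun a b : P => a < b) := by
  classical
  rw [RelEmbedding.wellFounded_iff_isEmpty]
  refine ⟨fun g => ?_⟩
  have hlt : ∀ i j : ℕ, i < j → g j < g i := fun i j h => g.map_rel_iff.2 h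
  have hc := hn ((Finset.range (n + 1)).image g) (by
    intro a ha b hb _
    simp only [Finset.coe_image, Set.mem_image] at ha hb
    obtain ⟨i, -, rfl⟩ := ha
    obtain ⟨j, -, rfl⟩ := hb
    rcases lt_trichotomy i j with h | h | h
    · exact Or.inr (hlt i j h).le
    · exact Or.inl (h ▸ le_rfl)
    · exact Or.inl (hlt j i h).le)
  rw [Finset.card_image_of_injective _ g.injective, Finset.card_range] at hc
  omega

theorem chains_dual {P : Type u} [PartialOrder P] (n : ℕ)
    (hn : ∀ c : Finset P, IsChain (· ≤ ·) (c : Set P) → c.card ≤ n) :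
    ∀ c : Finset Pᵒᵈ, IsChain (· ≤ ·) (c : Set Pᵒᵈ) → c.card ≤ n := by
  intro c hc
  exact hn c hc.symm

theorem wf_gt {P : Type u} [PartialOrder P] (n : ℕ)
    (hn : ∀ c : Finset P, IsChain (· ≤ ·) (c : Set P) → c.card ≤ n) :
    WellFounded (fun a b : P => b < a) :=
  wf_lt (P := Pᵒᵈ) n (chains_dual n hn)

theorem no_le {P : Type u} [PartialOrder P] (f : P → P) (hf : Monotone f)
    (hw : WellFounded (fun a b : P => b < a)) (hno : ¬ ∃ x, f x = x) : ∀ x, ¬ x ≤ f x := by
  intro x
  induction x using hw.induction with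
  | _ x ih =>
    intro h
    have hlt : x < f x := lt_of_le_of_ne h (fun he => hno ⟨x, he.symm⟩)
    exact ih (f x) hlt (hf h)

theorem no_ge {P : Type u} [PartialOrder P] (f : P → P) (hf : Monotone f)
    (hw : WellFounded (fun a b : P => a < b)) (hno : ¬ ∃ x, f x = x) : ∀ x, ¬ f x ≤ x := by
  intro x
  induction x using hw.induction with
  | _ x ih =>
    intro h
    have hlt : f x < x := lt_of_le_of_ne h (fun he => hno ⟨x, he⟩)
    exact ih (f x) hlt (hf h)

/-- the join, with junk value -/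
noncomputable def J {P : Type u} [PartialOrder P] (a b : P) : P :=
  open Classical in if h : ∃ z : P, IsLUB ({a, b} : Set P) z then h.choose else a

theorem J_spec {P : Type u} [PartialOrder P] {a b : P} (h : ∃ z : P, IsLUB ({a, b} : Set P) z) :
    IsLUB ({a, b} : Set P) (J a b) := by
  unfold J
  rw [dif_pos h]
  exact h.choose_spec

theorem lub_left {P : Type u} [PartialOrder P] {a b z : P} (h : IsLUB ({a, b} : Set P) z) :
    a ≤ z := h.1 (by simp)

theorem lub_right {P : Type u} [PartialOrder P] {a b z : P} (h : IsLUB ({a, b} : Set P) z) :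
    b ≤ z := h.1 (by simp)

theorem lub_le {P : Type u} [PartialOrder P] {a b z t : P} (h : IsLUB ({a, b} : Set P) z)
    (ha : a ≤ t) (hb : b ≤ t) : z ≤ t := by
  refine h.2 ?_
  rintro y (rfl | rfl)
  · exact ha
  · exact hb

theorem main (P : Type u) [PartialOrder P]
    (hfin : ∃ n : ℕ, ∀ c : Finset P, IsChain (· ≤ ·) (c : Set P) → c.card ≤ n)
    (s : P) (f : P → P) (hf : Monotone f) (A : Set P) (b : P → P)
    (hj : ∀ x ∈ A, ∃ z : P, IsLUB ({s, f x} : Set P) z)
    (hbs : ∀ w, w ∉ A → b w ≤ s ∧ b w ≤ f w)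
    (hbm : ∀ v w, v ∉ A → w ∉ A → v ≤ w → b v ≤ b w)
    (hi : ∀ x w, x ∈ A → w ∉ A → x < w → b w < s → ∃ z : P, IsLUB ({b w, f x} : Set P) z)
    (hc : ∀ x x' w w' : P, x ∈ A → x' ∈ A → w ∉ A → w' ∉ A → x < x' → x' < w → w < w' → x ≤ s →
      s ≤ w' → f x < f x' → ¬ (f w < f w' ∨ b w < b w')) :
    ∃ x, f x = x := by
  classical
  by_contra hno
  obtain ⟨n, hn⟩ := hfin
  have hlt := wf_lt n hn
  have hgt := wf_gt n hn
  have hcl : ∀ x ∈ A, IsLUB ({s, f x} : Set P) (J s (f x)) := fun x hx => J_spec (hj x hx)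
  have hbl : ∀ x ∈ A, ∀ w ∈ Aᶜ, x < w → IsLUB ({b w, f x} : Set P) (J (b w) (f x)) := by
    intro x hx w hw hxw
    rcases eq_or_lt_of_le (hbs w hw).1 with he | hl
    · rw [he]
      exact hcl x hx
    · exact J_spec (hi x w hx hw hxw hl)
  refine Dat.false (P := P)
    { f := f, s := s, D := A, U := Aᶜ, be := b, cc := fun x => J s (f x),
      bb := fun x w => J (b w) (f x), r := fun x y => f x = f y ∧ (x ∉ A → y ∉ A → b x = b y),
      wf := hlt, wg := hgt, hf := fun x y h => hf h,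
      nle := no_le f hf hgt hno, nge := no_ge f hf hlt hno,
      cov := fun y => Classical.em (y ∈ A), dis := fun x hx hx' => hx' hx,
      rr := fun x => ⟨rfl, fun _ _ => rfl⟩,
      rs := fun x y h => ⟨h.1.symm, fun h1 h2 => (h.2 h2 h1).symm⟩,
      rf := fun x y h => h.1, rb := fun v hv w hw h => h.2 hv hw,
      rc := ?_, bs := fun w hw => (hbs w hw).1, bw := fun w hw => (hbs w hw).2,
      bm := fun v hv w hw h => hbm v w hv hw h,
      cs := fun x hx => lub_left (hcl x hx), cx := fun x hx => lub_right (hcl x hx),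
      cm := ?_, b1 := fun x hx w hw h => lub_left (hbl x hx w hw h),
      b2 := fun x hx w hw h => lub_right (hbl x hx w hw h),
      b3 := ?_, b4 := ?_, b5 := ?_, b6 := ?_, nc := ?_ }
  · intro x _ y _ h
    show J s (f x) = J s (f y)
    rw [h.1]
  · intro x hx y hy h
    exact lub_le (hcl x hx) (lub_left (hcl y hy)) ((hf h).trans (lub_right (hcl y hy)))
  · intro x hx w hw h
    exact lub_le (hbl x hx w hw h) (hbs w hw).2 (hf h.le)
  · intro x hx w hw h
    exact lub_le (hbl x hx w hw h) ((hbs w hw).1.trans (lub_left (hcl x hx)))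
      (lub_right (hcl x hx))
  · intro x hx y hy hr v hv w hw h1 h2 h3
    refine lub_le (hbl x hx v hv h1) ((hbm v w hv hw h3).trans (lub_left (hbl y hy w hw h2))) ?_
    rw [hr.1]
    exact lub_right (hbl y hy w hw h2)
  · intro v hv w hw hr x hx y hy h1 h2 h3
    refine lub_le (hbl x hx v hv h1) ?_ ((hf h3).trans (lub_right (hbl y hy w hw h2)))
    rw [hr.2 hv hw]
    exact lub_left (hbl y hy w hw h2)
  · intro d hd d' hd' u hu u' hu' h1 h2 h3 h4 h5 h6 h7
    have g1 : f d ≠ f d' := fun h => h6 ⟨h, fun h' => (h' hd).elim⟩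
    refine hc d d' u u' hd hd' hu hu' h1 h2 h3 h4 h5 (lt_of_le_of_ne (hf h1.le) g1) ?_
    by_cases g2 : f u = f u'
    · right
      refine lt_of_le_of_ne (hbm u u' hu hu' h3.le) ?_
      intro g3
      exact h7 ⟨g2, fun _ _ => g3⟩
    · left
      exact lt_of_le_of_ne (hf h3.le) g2

theorem main_dual (P : Type u) [PartialOrder P]
    (hfin : ∃ n : ℕ, ∀ c : Finset P, IsChain (· ≤ ·) (c : Set P) → c.card ≤ n)
    (s : P) (f : P → P) (hf : Monotone f) (A : Set P) (b : P → P)
    (hj : ∀ x ∈ A, ∃ z : P, IsGLB ({s, f x} : Set P) z)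
    (hbs : ∀ w, w ∉ A → s ≤ b w ∧ f w ≤ b w)
    (hbm : ∀ v w, v ∉ A → w ∉ A → v ≤ w → b v ≤ b w)
    (hi : ∀ x w, x ∈ A → w ∉ A → w < x → s < b w → ∃ z : P, IsGLB ({b w, f x} : Set P) z)
    (hc : ∀ x x' w w' : P, x ∈ A → x' ∈ A → w ∉ A → w' ∉ A → x' < x → w < x' → w' < w → s ≤ x →
      w' ≤ s → f x' < f x → ¬ (f w' < f w ∨ b w' < b w)) :
    ∃ x, f x = x := by
  obtain ⟨n, hn⟩ := hfin
  exact main Pᵒᵈ ⟨n, chains_dual n hn⟩ s f (fun x y h => hf h) A b hj hbs
    (fun v w hv hw h => hbm w v hw hv h) hi hc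

/-- the case of a special element -/
theorem special (P : Type u) [PartialOrder P]
    (hfin : ∃ n : ℕ, ∀ c : Finset P, IsChain (· ≤ ·) (c : Set P) → c.card ≤ n) (s : P)
    (h1 : ∀ x : P, (∃ z : P, IsLUB ({s, x} : Set P) z) ∨ (∃ z : P, IsGLB ({s, x} : Set P) z))
    (h2 : ∀ x y : P, x < y → (¬ ∃ z : P, IsGLB ({s, x} : Set P) z) →
      ∀ m : P, IsGLB ({s, y} : Set P) m → ∃ z : P, IsLUB ({m, x} : Set P) z)
    (f : P → P) (hf : Monotone f)
    (hc : ∀ x x' w w' : P, x < x' → x' < w → w < w' → x ≤ s → s ≤ w' → f x < f x' → f w < f w' →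
      (¬ ∃ z : P, IsGLB ({s, f x} : Set P) z) → (¬ ∃ z : P, IsGLB ({s, f x'} : Set P) z) →
      (∃ z : P, IsGLB ({s, f w} : Set P) z) → ¬ ∃ z : P, IsGLB ({s, f w'} : Set P) z) :
    ∃ x, f x = x := by
  classical
  let A : Set P := {x | ¬ ∃ z : P, IsGLB ({s, f x} : Set P) z}
  let M : P → P := fun y => if h : ∃ z : P, IsGLB ({s, y} : Set P) z then h.choose else s
  have hM : ∀ y, (∃ z : P, IsGLB ({s, y} : Set P) z) → IsGLB ({s, y} : Set P) (M y) := by
    intro y hy
    simp only [M, dif_pos hy]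
    exact hy.choose_spec
  have hA : ∀ w, w ∉ A → IsGLB ({s, f w} : Set P) (M (f w)) := fun w hw =>
    hM _ (by simpa [A] using hw)
  refine main P hfin s f hf A (fun w => M (f w)) ?_ ?_ ?_ ?_ ?_
  · intro x hx
    rcases h1 (f x) with h | h
    · exact h
    · exact absurd h hx
  · intro w hw
    exact ⟨(hA w hw).1 (by simp), (hA w hw).1 (by simp)⟩
  · intro v w hv hw h
    refine (hA w hw).2 ?_
    rintro z (rfl | rfl)
    · exact (hA v hv).1 (by simp)
    · exact ((hA v hv).1 (by simp) : M (f v) ≤ f v).trans (hf h)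
  · intro x w hx hw hxw _
    have hlt : f x < f w := by
      refine lt_of_le_of_ne (hf hxw.le) ?_
      intro he
      exact hx (he ▸ (by simpa [A] using hw))
    exact h2 (f x) (f w) hlt hx _ (hA w hw)
  · intro x x' w w' hx hx' hw hw' g1 g2 g3 g4 g5 g6 g7
    rcases g7 with g7 | g7
    · exact hc x x' w w' g1 g2 g3 g4 g5 g6 g7 hx hx' (by simpa [A] using hw)
        (by simpa [A] using hw')
    · have g8 : f w < f w' := by
        refine lt_of_le_of_ne (hf g3.le) ?_
        intro he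
        have : M (f w) < M (f w') := g7
        rw [he] at this
        exact lt_irrefl _ this
      exact hc x x' w w' g1 g2 g3 g4 g5 g6 g8 hx hx' (by simpa [A] using hw)
        (by simpa [A] using hw')

end Pool.Agent.Helper73.DU
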