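import Pool.Agent.Helper73.DU.NoInf
import Pool.Agent.Helper73.DU.Fin5

/-! Project DU: the theorems with the chains of types `D D D U U` and `D D U U U` excluded. -/

set_option autoImplicit false

universe u

namespace Pool.Agent.Helper73.DU

theorem mainG (P : Type u) [PartialOrder P]
    (hfin : ∀ C : Set P, IsChain (· ≤ ·) C → C.Finite)
    (s : P) (f : P → P) (hf : Monotone f) (A : Set P) (b : P → P)
    (hj : ∀ x ∈ A, ∃ z : P, IsLUB ({s, f x} : Set P) z)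
    (hbs : ∀ w, w ∉ A → b w ≤ s ∧ b w ≤ f w)
    (hbm : ∀ v w, v ∉ A → w ∉ A → v ≤ w → b v ≤ b w)
    (hi : ∀ x w, x ∈ A → w ∉ A → x < w → b w < s → ∃ z : P, IsLUB ({b w, f x} : Set P) z)
    (hc1 : ∀ x x' x'' w w' : P, x ∈ A → x' ∈ A → x'' ∈ A → w ∉ A → w' ∉ A → x < x' → x' < x'' →
      x'' < w → w < w' → x ≤ s → s ≤ w' → f x < f x' → f x' < f x'' →
      ¬ (f w < f w' ∨ b w < b w'))
    (hc2 : ∀ x x' w w' w'' : P, x ∈ A → x' ∈ A → w ∉ A → w' ∉ A → w'' ∉ A → x < x' → x' < w →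
      w < w' → w' < w'' → x ≤ s → s ≤ w'' → f x < f x' → (f w < f w' ∨ b w < b w') →
      ¬ (f w' < f w'' ∨ b w' < b w'')) :
    ∃ x, f x = x := by
  classical
  by_contra hno
  have hlt := wfF_lt hfin
  have hgt := wfF_gt hfin
  have hcl : ∀ x ∈ A, IsLUB ({s, f x} : Set P) (J s (f x)) := fun x hx => J_spec (hj x hx)
  have hbl : ∀ x ∈ A, ∀ w ∈ Aᶜ, x < w → IsLUB ({b w, f x} : Set P) (J (b w) (f x)) := by
    intro x hx w hw hxw
    rcases eq_or_lt_of_le (hbs w hw).1 with he | hl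
    · rw [he]
      exact hcl x hx
    · exact J_spec (hi x w hx hw hxw hl)
  let key : P → Option P := fun x => if x ∈ A then none else some (b x)
  have kA : ∀ x ∈ A, key x = none := fun x hx => by simp only [key, if_pos hx]
  have kN : ∀ x, x ∉ A → key x = some (b x) := fun x hx => by simp only [key, if_neg hx]
  have kb : ∀ v w, v ∉ A → w ∉ A → key v = key w → b v = b w := by
    intro v w hv hw h
    rw [kN v hv, kN w hw] at h
    exact Option.some.inj h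
  have hstr : ∀ u u', u ∉ A → u' ∉ A → u ≤ u' → ¬ (f u = f u' ∧ key u = key u') →
      (f u < f u' ∨ b u < b u') := by
    intro u u' hu hu' h3 h7
    by_cases g2 : f u = f u'
    · right
      refine lt_of_le_of_ne (hbm u u' hu hu' h3) ?_
      intro g3
      exact h7 ⟨g2, by rw [kN u hu, kN u' hu', g3]⟩
    · left
      exact lt_of_le_of_ne (hf h3) g2
  have hstA : ∀ x x', x ∈ A → x' ∈ A → x ≤ x' → ¬ (f x = f x' ∧ key x = key x') →
      f x < f x' ∧ x < x' := by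
    intro x x' hx hx' h1 h7
    have g : f x ≠ f x' := fun g => h7 ⟨g, by rw [kA x hx, kA x' hx']⟩
    exact ⟨lt_of_le_of_ne (hf h1) g, lt_of_le_of_ne h1 (fun h => g (by rw [h]))⟩
  have hlU : ∀ u u', u ≤ u' → ¬ (f u = f u' ∧ key u = key u') → u < u' := fun u u' h1 h7 =>
    lt_of_le_of_ne h1 (fun h => h7 (by rw [h]; exact ⟨rfl, rfl⟩))
  have hlt' : ∀ x w, x ∈ A → w ∉ A → x ≤ w → x < w := fun x w hx hw h =>
    lt_of_le_of_ne h (fun he => hw (he ▸ hx))
  refine Dat5.false (P := P)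
    { f := f, s := s, D := A, U := Aᶜ, be := b, cc := fun x => J s (f x),
      bb := fun x w => J (b w) (f x), r := fun x y => f x = f y ∧ key x = key y,
      wf := hlt, wg := hgt,
      nle := no_le f hf hgt hno, nge := no_ge f hf hlt hno,
      cov := fun y => Classical.em (y ∈ A), dis := fun x hx hx' => hx' hx,
      rr := fun x => ⟨rfl, rfl⟩,
      rs := fun x y h => ⟨h.1.symm, h.2.symm⟩,
      rt := fun x y z h h' => ⟨h.1.trans h'.1, h.2.trans h'.2⟩,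
      rf := fun x y h => h.1, rb := fun v hv w hw h => kb v w hv hw h.2,
      rc := ?_, kD := ?_, kU := ?_, bs := fun w hw => (hbs w hw).1, bw := fun w hw => (hbs w hw).2,
      bm := fun v hv w hw h => hbm v w hv hw h,
      cs := fun x hx => lub_left (hcl x hx), cx := fun x hx => lub_right (hcl x hx),
      cm := ?_, b1 := fun x hx w hw h => lub_left (hbl x hx w hw h),
      b2 := fun x hx w hw h => lub_right (hbl x hx w hw h),
      b3 := ?_, b4 := ?_, b5 := ?_, b6 := ?_, b7 := ?_, n1 := ?_, n2 := ?_ }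
  · intro x _ y _ h
    show J s (f x) = J s (f y)
    rw [h.1]
  · intro x hx y hy z hz h1 h2 h3
    refine ⟨le_antisymm (hf h1) ?_, by rw [kA x hx, kA y hy]⟩
    rw [h3.1]
    exact hf h2
  · intro x hx y hy z hz h1 h2 h3
    refine ⟨le_antisymm (hf h1) ?_, ?_⟩
    · rw [h3.1]
      exact hf h2
    · have e1 : b x = b z := kb x z hx hz h3.2
      have e2 : b x = b y := by
        refine le_antisymm (hbm x y hx hy h1) ?_
        rw [e1]
        exact hbm y z hy hz h2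
      rw [kN x hx, kN y hy, e2]
  · intro x hx y hy h
    exact lub_le (hcl x hx) (lub_left (hcl y hy)) ((hf h).trans (lub_right (hcl y hy)))
  · intro x hx w hw h
    exact lub_le (hbl x hx w hw h) (hbs w hw).2 (hf h.le)
  · intro x hx w hw h
    exact lub_le (hbl x hx w hw h) ((hbs w hw).1.trans (lub_left (hcl x hx)))
      (lub_right (hcl x hx))
  · intro x hx y hy hr v hv w hw h1 h2 h3
    refine lub_le (hbl x hx v hv h1) ((hbm v w hv hw h3).trans (lub_left (hbl y hy w hw h2))) ?_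
    rw [hr.1]
    exact lub_right (hbl y hy w hw h2)
  · intro v hv w hw hr x hx y hy h1 h2 h3
    refine lub_le (hbl x hx v hv h1) ?_ ((hf h3).trans (lub_right (hbl y hy w hw h2)))
    rw [kb v w hv hw hr.2]
    exact lub_left (hbl y hy w hw h2)
  · intro x hx y hy hr v hv w hw hr' _ _
    show J (b v) (f x) = J (b w) (f y)
    rw [hr.1, kb v w hv hw hr'.2]
  · intro x hx x' hx' x'' hx'' w hw w' hw' h1 h2 h3 h4 h5 h6 h7 h8 h9
    obtain ⟨g1, g2⟩ := hstA x x' hx hx' h1 h7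
    obtain ⟨g3, g4⟩ := hstA x' x'' hx' hx'' h2 h8
    exact hc1 x x' x'' w w' hx hx' hx'' hw hw' g2 g4 (hlt' _ _ hx'' hw h3) (hlU _ _ h4 h9) h5 h6
      g1 g3 (hstr w w' hw hw' h4 h9)
  · intro x hx x' hx' w hw w' hw' w'' hw'' h1 h2 h3 h4 h5 h6 h7 h8 h9
    obtain ⟨g1, g2⟩ := hstA x x' hx hx' h1 h7
    exact hc2 x x' w w' w'' hx hx' hw hw' hw'' g2 (hlt' _ _ hx' hw h2) (hlU _ _ h3 h8)
      (hlU _ _ h4 h9) h5 h6 g1 (hstr w w' hw hw' h3 h8) (hstr w' w'' hw' hw'' h4 h9)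

theorem mainG_dual (P : Type u) [PartialOrder P]
    (hfin : ∀ C : Set P, IsChain (· ≤ ·) C → C.Finite)
    (s : P) (f : P → P) (hf : Monotone f) (A : Set P) (b : P → P)
    (hj : ∀ x ∈ A, ∃ z : P, IsGLB ({s, f x} : Set P) z)
    (hbs : ∀ w, w ∉ A → s ≤ b w ∧ f w ≤ b w)
    (hbm : ∀ v w, v ∉ A → w ∉ A → v ≤ w → b v ≤ b w)
    (hi : ∀ x w, x ∈ A → w ∉ A → w < x → s < b w → ∃ z : P, IsGLB ({b w, f x} : Set P) z)
    (hc1 : ∀ x x' x'' w w' : P, x ∈ A → x' ∈ A → x'' ∈ A → w ∉ A → w' ∉ A → x' < x → x'' < x' →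
      w < x'' → w' < w → s ≤ x → w' ≤ s → f x' < f x → f x'' < f x' →
      ¬ (f w' < f w ∨ b w' < b w))
    (hc2 : ∀ x x' w w' w'' : P, x ∈ A → x' ∈ A → w ∉ A → w' ∉ A → w'' ∉ A → x' < x → w < x' →
      w' < w → w'' < w' → s ≤ x → w'' ≤ s → f x' < f x → (f w' < f w ∨ b w' < b w) →
      ¬ (f w'' < f w' ∨ b w'' < b w')) :
    ∃ x, f x = x :=
  mainG Pᵒᵈ (chainsF_dual hfin) s f (fun x y h => hf h) A b hj hbs
    (fun v w hv hw h => hbm w v hw hv h) hi hc1 hc2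

theorem specialG (P : Type u) [PartialOrder P]
    (hfin : ∀ C : Set P, IsChain (· ≤ ·) C → C.Finite) (s : P)
    (h1 : ∀ x : P, (∃ z : P, IsLUB ({s, x} : Set P) z) ∨ (∃ z : P, IsGLB ({s, x} : Set P) z))
    (h2 : ∀ x y : P, x < y → (¬ ∃ z : P, IsGLB ({s, x} : Set P) z) →
      ∀ m : P, IsGLB ({s, y} : Set P) m → ∃ z : P, IsLUB ({m, x} : Set P) z)
    (f : P → P) (hf : Monotone f)
    (hc1 : ∀ x x' x'' w y : P, x < x' → x' < x'' → x'' < w → w < y → x ≤ s → s ≤ y → f x < f x' →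
      f x' < f x'' → f w < f y → (¬ ∃ z : P, IsGLB ({s, f x} : Set P) z) →
      (¬ ∃ z : P, IsGLB ({s, f x'} : Set P) z) → (¬ ∃ z : P, IsGLB ({s, f x''} : Set P) z) →
      (∃ z : P, IsGLB ({s, f w} : Set P) z) → ∃ z : P, IsLUB ({s, f y} : Set P) z)
    (hc2 : ∀ x x' w w' y : P, x < x' → x' < w → w < w' → w' < y → x ≤ s → s ≤ y → f x < f x' →
      f w < f w' → f w' < f y → (¬ ∃ z : P, IsGLB ({s, f x} : Set P) z) →
      (¬ ∃ z : P, IsGLB ({s, f x'} : Set P) z) → (∃ z : P, IsGLB ({s, f w} : Set P) z) →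
      (∃ z : P, IsGLB ({s, f w'} : Set P) z) → ∃ z : P, IsLUB ({s, f y} : Set P) z) :
    ∃ x, f x = x := by
  classical
  let A : Set P := {x | (¬ ∃ z : P, IsGLB ({s, f x} : Set P) z) ∨
    ∀ y, x ≤ y → ∃ z : P, IsLUB ({s, f y} : Set P) z}
  let M : P → P := fun y => if h : ∃ z : P, IsGLB ({s, y} : Set P) z then h.choose else s
  have hM : ∀ y, (∃ z : P, IsGLB ({s, y} : Set P) z) → IsGLB ({s, y} : Set P) (M y) := by
    intro y hy
    simp only [M, dif_pos hy]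
    exact hy.choose_spec
  have hA0 : ∀ w, w ∉ A → (∃ z : P, IsGLB ({s, f w} : Set P) z) ∧
      ∃ y, w ≤ y ∧ ¬ ∃ z : P, IsLUB ({s, f y} : Set P) z := by
    intro w hw
    by_contra h
    apply hw
    by_cases h3 : ∃ z : P, IsGLB ({s, f w} : Set P) z
    · right
      intro y hy
      by_contra h4
      exact h ⟨h3, y, hy, h4⟩
    · exact Or.inl h3
  have hA : ∀ w, w ∉ A → IsGLB ({s, f w} : Set P) (M (f w)) := fun w hw => hM _ (hA0 w hw).1
  have hlow : ∀ x w, x ∈ A → w ∉ A → x < w → ¬ ∃ z : P, IsGLB ({s, f x} : Set P) z := by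
    intro x w hx hw hxw
    rcases hx with hx | hx
    · exact hx
    · exact (hw (Or.inr fun y hy => hx y (hxw.le.trans hy))).elim
  have hstr : ∀ w w', w ≤ w' → (f w < f w' ∨ M (f w) < M (f w')) → f w < f w' := by
    intro w w' g3 g7
    rcases g7 with g7 | g7
    · exact g7
    · refine lt_of_le_of_ne (hf g3) ?_
      intro he
      rw [he] at g7
      exact lt_irrefl _ g7
  refine mainG P hfin s f hf A (fun w => M (f w)) ?_ ?_ ?_ ?_ ?_ ?_
  · intro x hx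
    rcases hx with hx | hx
    · rcases h1 (f x) with h | h
      · exact h
      · exact absurd h hx
    · exact hx x le_rfl
  · intro w hw
    exact ⟨(hA w hw).1 (by simp), (hA w hw).1 (by simp)⟩
  · intro v w hv hw h
    refine (hA w hw).2 ?_
    rintro z (rfl | rfl)
    · exact (hA v hv).1 (by simp)
    · exact ((hA v hv).1 (by simp) : M (f v) ≤ f v).trans (hf h)
  · intro x w hx hw hxw _
    have hxl := hlow x w hx hw hxw
    have hlt : f x < f w := by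
      refine lt_of_le_of_ne (hf hxw.le) ?_
      intro he
      exact hxl (he ▸ (hA0 w hw).1)
    exact h2 (f x) (f w) hlt hxl _ (hA w hw)
  · intro x x' x'' w w' hx hx' hx'' hw hw' g1 g2 g3 g4 g5 g6 g7 g8 g9
    obtain ⟨y, hy, hny⟩ := (hA0 w' hw').2
    exact hny (hc1 x x' x'' w y g1 g2 g3 (g4.trans_le hy) g5 (g6.trans hy) g7 g8
      ((hstr w w' g4.le g9).trans_le (hf hy)) (hlow x w hx hw ((g1.trans g2).trans g3))
      (hlow x' w hx' hw (g2.trans g3)) (hlow x'' w hx'' hw g3) (hA0 w hw).1)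
  · intro x x' w w' w'' hx hx' hw hw' hw'' g1 g2 g3 g4 g5 g6 g7 g8 g9
    obtain ⟨y, hy, hny⟩ := (hA0 w'' hw'').2
    exact hny (hc2 x x' w w' y g1 g2 g3 (g4.trans_le hy) g5 (g6.trans hy) g7
      (hstr w w' g3.le g8) ((hstr w' w'' g4.le g9).trans_le (hf hy))
      (hlow x w hx hw (g1.trans g2)) (hlow x' w hx' hw g2) (hA0 w hw).1 (hA0 w' hw').1)

theorem specialG' (P : Type u) [PartialOrder P]
    (hfin : ∀ C : Set P, IsChain (· ≤ ·) C → C.Finite) (s : P)
    (h1 : ∀ x : P, (∃ z : P, IsLUB ({s, x} : Set P) z) ∨ (∃ z : P, IsGLB ({s, x} : Set P) z))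
    (h2 : ∀ x y : P, x < y → (¬ ∃ z : P, IsGLB ({s, x} : Set P) z) →
      ∀ m : P, IsGLB ({s, y} : Set P) m → ∃ z : P, IsLUB ({m, x} : Set P) z)
    (hc1 : ∀ a a' a'' c e : P, a < a' → a' < a'' → a'' < c → c < e →
      (¬ ∃ z : P, IsGLB ({s, a} : Set P) z) → (¬ ∃ z : P, IsGLB ({s, a'} : Set P) z) →
      (¬ ∃ z : P, IsGLB ({s, a''} : Set P) z) → (∃ z : P, IsGLB ({s, c} : Set P) z) →
      ∃ z : P, IsLUB ({s, e} : Set P) z)
    (hc2 : ∀ a a' c c' e : P, a < a' → a' < c → c < c' → c' < e →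
      (¬ ∃ z : P, IsGLB ({s, a} : Set P) z) → (¬ ∃ z : P, IsGLB ({s, a'} : Set P) z) →
      (∃ z : P, IsGLB ({s, c} : Set P) z) → (∃ z : P, IsGLB ({s, c'} : Set P) z) →
      ∃ z : P, IsLUB ({s, e} : Set P) z)
    (f : P → P) (hf : Monotone f) : ∃ x, f x = x := by
  have key : ∀ x w : P, x < w → (¬ ∃ z : P, IsGLB ({s, f x} : Set P) z) →
      (∃ z : P, IsGLB ({s, f w} : Set P) z) → f x < f w := by
    intro x w h k1 k2
    refine lt_of_le_of_ne (hf h.le) ?_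
    intro he
    exact k1 (he ▸ k2)
  refine specialG P hfin s h1 h2 f hf ?_ ?_
  · intro x x' x'' w y g1 g2 g3 g4 _ _ g7 g8 g9 k1 k2 k3 k4
    exact hc1 _ _ _ _ _ g7 g8 (key x'' w g3 k3 k4) g9 k1 k2 k3 k4
  · intro x x' w w' y g1 g2 g3 g4 _ _ g7 g8 g9 k1 k2 k3 k4
    exact hc2 _ _ _ _ _ g7 (key x' w g2 k2 k3) g8 g9 k1 k2 k3 k4

end Pool.Agent.Helper73.DU
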