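import Pool.Agent.Helper73.DU.Main

/-! Project DU: the theorems for posets without infinite chains; for a special element only chains
ending at a point whose value has no join with `s` matter. -/

set_option autoImplicit false

universe u

namespace Pool.Agent.Helper73.DU

theorem wfF_lt {P : Type u} [PartialOrder P] (hfin : ∀ C : Set P, IsChain (· ≤ ·) C → C.Finite) :
    WellFounded (fun a b : P => a < b) := by
  rw [RelEmbedding.wellFounded_iff_isEmpty]
  refine ⟨fun g => ?_⟩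
  have hlt : ∀ i j : ℕ, i < j → g j < g i := fun i j h => g.map_rel_iff.2 h
  have hc := hfin (Set.range g) (by
    rintro a ⟨i, rfl⟩ b ⟨j, rfl⟩ _
    rcases lt_trichotomy i j with h | h | h
    · exact Or.inr (hlt i j h).le
    · exact Or.inl (h ▸ le_rfl)
    · exact Or.inl (hlt j i h).le)
  exact Set.infinite_range_of_injective g.injective hc

theorem chainsF_dual {P : Type u} [PartialOrder P]
    (hfin : ∀ C : Set P, IsChain (· ≤ ·) C → C.Finite) :
    ∀ C : Set Pᵒᵈ, IsChain (· ≤ ·) C → C.Finite := by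
  intro C hC
  exact hfin C hC.symm

theorem wfF_gt {P : Type u} [PartialOrder P] (hfin : ∀ C : Set P, IsChain (· ≤ ·) C → C.Finite) :
    WellFounded (fun a b : P => b < a) :=
  wfF_lt (P := Pᵒᵈ) (chainsF_dual hfin)

/-- chains of bounded size are finite -/
theorem finite_of_bounded {P : Type u} [PartialOrder P]
    (h : ∃ n : ℕ, ∀ c : Finset P, IsChain (· ≤ ·) (c : Set P) → c.card ≤ n) :
    ∀ C : Set P, IsChain (· ≤ ·) C → C.Finite := by
  obtain ⟨n, hn⟩ := h
  intro C hC
  by_contra hinf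
  obtain ⟨t, ht, hcard⟩ := Set.Infinite.exists_subset_card_eq hinf (n + 1)
  have := hn t (hC.mono ht)
  omega

theorem mainF (P : Type u) [PartialOrder P]
    (hfin : ∀ C : Set P, IsChain (· ≤ ·) C → C.Finite)
    (s : P) (f : P → P) (hf : Monotone f) (A : Set P) (b : P → P)
    (hj : ∀ x ∈ A, ∃ z : P, IsLUB ({s, f x} : Set P) z)
    (hbs : ∀ w, w ∉ A → b w ≤ s ∧ b w ≤ f w)
    (hbm : ∀ v w, v ∉ A → w ∉ A → v ≤ w → b v ≤ b w)
    (hi : ∀ x w, x ∈ A → w ∉ A → x < w → b w < s → ∃ z : P, IsLUB ({b w, f x} : Set P) z)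
    (hc : ∀ x x' w w' : P, x ∈ A → x' ∈ A → w ∉ A → w' ∉ A → x < x' → x' < w → w < w' → x ≤ s →
      s ≤ w' → f x < f x' → ¬ (f w < f w' ∨ b w < b w')) :
    ∃ x, f x = x := by
  classical
  by_contra hno
  have hlt := wfF_lt hfin
  have hgt := wfF_gt hfin
  have hcl : ∀ x ∈ A, IsLUB ({s, f x} : Set P) (J s (f x)) := fun x hx => J_spec (hj x hx)
  have hbl : ∀ x ∈ A, ∀ w ∈ Aᶜ, x < w → IsLUB ({b w, f x} : Set P) (J (b w) (f x)) := by
    intro x hx w hw hxw
    rcases eq_or_lt_of_le (hbs w hw).1 with he | hl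
    · rw [he]
      exact hcl x hx
    · exact J_spec (hi x w hx hw hxw hl)
  refine Dat.false (P := P)
    { f := f, s := s, D := A, U := Aᶜ, be := b, cc := fun x => J s (f x),
      bb := fun x w => J (b w) (f x), r := fun x y => f x = f y ∧ (x ∉ A → y ∉ A → b x = b y),
      wf := hlt, wg := hgt, hf := fun x y h => hf h,
      nle := no_le f hf hgt hno, nge := no_ge f hf hlt hno,
      cov := fun y => Classical.em (y ∈ A), dis := fun x hx hx' => hx' hx,
      rr := fun x => ⟨rfl, fun _ _ => rfl⟩,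
      rs := fun x y h => ⟨h.1.symm, fun h1 h2 => (h.2 h2 h1).symm⟩,
      rf := fun x y h => h.1, rb := fun v hv w hw h => h.2 hv hw,
      rc := ?_, bs := fun w hw => (hbs w hw).1, bw := fun w hw => (hbs w hw).2,
      bm := fun v hv w hw h => hbm v w hv hw h,
      cs := fun x hx => lub_left (hcl x hx), cx := fun x hx => lub_right (hcl x hx),
      cm := ?_, b1 := fun x hx w hw h => lub_left (hbl x hx w hw h),
      b2 := fun x hx w hw h => lub_right (hbl x hx w hw h),
      b3 := ?_, b4 := ?_, b5 := ?_, b6 := ?_, nc := ?_ }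
  · intro x _ y _ h
    show J s (f x) = J s (f y)
    rw [h.1]
  · intro x hx y hy h
    exact lub_le (hcl x hx) (lub_left (hcl y hy)) ((hf h).trans (lub_right (hcl y hy)))
  · intro x hx w hw h
    exact lub_le (hbl x hx w hw h) (hbs w hw).2 (hf h.le)
  · intro x hx w hw h
    exact lub_le (hbl x hx w hw h) ((hbs w hw).1.trans (lub_left (hcl x hx)))
      (lub_right (hcl x hx))
  · intro x hx y hy hr v hv w hw h1 h2 h3
    refine lub_le (hbl x hx v hv h1) ((hbm v w hv hw h3).trans (lub_left (hbl y hy w hw h2))) ?_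
    rw [hr.1]
    exact lub_right (hbl y hy w hw h2)
  · intro v hv w hw hr x hx y hy h1 h2 h3
    refine lub_le (hbl x hx v hv h1) ?_ ((hf h3).trans (lub_right (hbl y hy w hw h2)))
    rw [hr.2 hv hw]
    exact lub_left (hbl y hy w hw h2)
  · intro d hd d' hd' u hu u' hu' h1 h2 h3 h4 h5 h6 h7
    have g1 : f d ≠ f d' := fun h => h6 ⟨h, fun h' => (h' hd).elim⟩
    refine hc d d' u u' hd hd' hu hu' h1 h2 h3 h4 h5 (lt_of_le_of_ne (hf h1.le) g1) ?_
    by_cases g2 : f u = f u'
    · right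
      refine lt_of_le_of_ne (hbm u u' hu hu' h3.le) ?_
      intro g3
      exact h7 ⟨g2, fun _ _ => g3⟩
    · left
      exact lt_of_le_of_ne (hf h3.le) g2

theorem mainF_dual (P : Type u) [PartialOrder P]
    (hfin : ∀ C : Set P, IsChain (· ≤ ·) C → C.Finite)
    (s : P) (f : P → P) (hf : Monotone f) (A : Set P) (b : P → P)
    (hj : ∀ x ∈ A, ∃ z : P, IsGLB ({s, f x} : Set P) z)
    (hbs : ∀ w, w ∉ A → s ≤ b w ∧ f w ≤ b w)
    (hbm : ∀ v w, v ∉ A → w ∉ A → v ≤ w → b v ≤ b w)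
    (hi : ∀ x w, x ∈ A → w ∉ A → w < x → s < b w → ∃ z : P, IsGLB ({b w, f x} : Set P) z)
    (hc : ∀ x x' w w' : P, x ∈ A → x' ∈ A → w ∉ A → w' ∉ A → x' < x → w < x' → w' < w → s ≤ x →
      w' ≤ s → f x' < f x → ¬ (f w' < f w ∨ b w' < b w)) :
    ∃ x, f x = x := by
  exact mainF Pᵒᵈ (chainsF_dual hfin) s f (fun x y h => hf h) A b hj hbs
    (fun v w hv hw h => hbm w v hw hv h) hi hc

/-- the case of a special element -/
theorem specialF (P : Type u) [PartialOrder P]
    (hfin : ∀ C : Set P, IsChain (· ≤ ·) C → C.Finite) (s : P)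
    (h1 : ∀ x : P, (∃ z : P, IsLUB ({s, x} : Set P) z) ∨ (∃ z : P, IsGLB ({s, x} : Set P) z))
    (h2 : ∀ x y : P, x < y → (¬ ∃ z : P, IsGLB ({s, x} : Set P) z) →
      ∀ m : P, IsGLB ({s, y} : Set P) m → ∃ z : P, IsLUB ({m, x} : Set P) z)
    (f : P → P) (hf : Monotone f)
    (hc : ∀ x x' w y : P, x < x' → x' < w → w < y → x ≤ s → s ≤ y → f x < f x' → f w < f y →
      (¬ ∃ z : P, IsGLB ({s, f x} : Set P) z) → (¬ ∃ z : P, IsGLB ({s, f x'} : Set P) z) →
      (∃ z : P, IsGLB ({s, f w} : Set P) z) → ∃ z : P, IsLUB ({s, f y} : Set P) z) :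
    ∃ x, f x = x := by
  classical
  let A : Set P := {x | (¬ ∃ z : P, IsGLB ({s, f x} : Set P) z) ∨
    ∀ y, x ≤ y → ∃ z : P, IsLUB ({s, f y} : Set P) z}
  let M : P → P := fun y => if h : ∃ z : P, IsGLB ({s, y} : Set P) z then h.choose else s
  have hM : ∀ y, (∃ z : P, IsGLB ({s, y} : Set P) z) → IsGLB ({s, y} : Set P) (M y) := by
    intro y hy
    simp only [M, dif_pos hy]
    exact hy.choose_spec
  have hA0 : ∀ w, w ∉ A → (∃ z : P, IsGLB ({s, f w} : Set P) z) ∧
      ∃ y, w ≤ y ∧ ¬ ∃ z : P, IsLUB ({s, f y} : Set P) z := by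
    intro w hw
    by_contra h
    apply hw
    by_cases h3 : ∃ z : P, IsGLB ({s, f w} : Set P) z
    · right
      intro y hy
      by_contra h4
      exact h ⟨h3, y, hy, h4⟩
    · exact Or.inl h3
  have hA : ∀ w, w ∉ A → IsGLB ({s, f w} : Set P) (M (f w)) := fun w hw => hM _ (hA0 w hw).1
  have hlow : ∀ x w, x ∈ A → w ∉ A → x < w → ¬ ∃ z : P, IsGLB ({s, f x} : Set P) z := by
    intro x w hx hw hxw
    rcases hx with hx | hx
    · exact hx
    · exact (hw (Or.inr fun y hy => hx y (hxw.le.trans hy))).elim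
  refine mainF P hfin s f hf A (fun w => M (f w)) ?_ ?_ ?_ ?_ ?_
  · intro x hx
    rcases hx with hx | hx
    · rcases h1 (f x) with h | h
      · exact h
      · exact absurd h hx
    · exact hx x le_rfl
  · intro w hw
    exact ⟨(hA w hw).1 (by simp), (hA w hw).1 (by simp)⟩
  · intro v w hv hw h
    refine (hA w hw).2 ?_
    rintro z (rfl | rfl)
    · exact (hA v hv).1 (by simp)
    · exact ((hA v hv).1 (by simp) : M (f v) ≤ f v).trans (hf h)
  · intro x w hx hw hxw _
    have hxl := hlow x w hx hw hxw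
    have hlt : f x < f w := by
      refine lt_of_le_of_ne (hf hxw.le) ?_
      intro he
      exact hxl (he ▸ (hA0 w hw).1)
    exact h2 (f x) (f w) hlt hxl _ (hA w hw)
  · intro x x' w w' hx hx' hw hw' g1 g2 g3 g4 g5 g6 g7
    have g8 : f w < f w' := by
      rcases g7 with g7 | g7
      · exact g7
      · refine lt_of_le_of_ne (hf g3.le) ?_
        intro he
        have : M (f w) < M (f w') := g7
        rw [he] at this
        exact lt_irrefl _ this
    obtain ⟨y, hy, hny⟩ := (hA0 w' hw').2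
    exact hny (hc x x' w y g1 g2 (g3.trans_le hy) g4 (g5.trans hy) g6 (g8.trans_le (hf hy))
      (hlow x w hx hw (g1.trans g2)) (hlow x' w hx' hw g2) (hA0 w hw).1)

/-- the case of a special element, in terms of the values or of `P` -/
theorem specialF' (P : Type u) [PartialOrder P]
    (hfin : ∀ C : Set P, IsChain (· ≤ ·) C → C.Finite) (s : P)
    (h1 : ∀ x : P, (∃ z : P, IsLUB ({s, x} : Set P) z) ∨ (∃ z : P, IsGLB ({s, x} : Set P) z))
    (h2 : ∀ x y : P, x < y → (¬ ∃ z : P, IsGLB ({s, x} : Set P) z) →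
      ∀ m : P, IsGLB ({s, y} : Set P) m → ∃ z : P, IsLUB ({m, x} : Set P) z)
    (f : P → P) (hf : Monotone f)
    (hc : (∀ a a' c e : P, a < a' → a' < c → c < e → (¬ ∃ z : P, IsGLB ({s, a} : Set P) z) →
        (¬ ∃ z : P, IsGLB ({s, a'} : Set P) z) → (∃ z : P, IsGLB ({s, c} : Set P) z) →
        ∃ z : P, IsLUB ({s, e} : Set P) z) ∨
      (∀ x x' w y : P, x < x' → x' < w → w < y → x ≤ s → s ≤ y → f x < f x' → f w < f y →
        (¬ ∃ z : P, IsGLB ({s, f x} : Set P) z) → (¬ ∃ z : P, IsGLB ({s, f x'} : Set P) z) →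
        (∃ z : P, IsGLB ({s, f w} : Set P) z) → ∃ z : P, IsLUB ({s, f y} : Set P) z)) :
    ∃ x, f x = x := by
  refine specialF P hfin s h1 h2 f hf ?_
  rcases hc with h | h
  · intro x x' w y g1 g2 g3 _ _ g6 g7 k1 k2 k3
    have g8 : f x' < f w := by
      refine lt_of_le_of_ne (hf g2.le) ?_
      intro he
      exact k2 (he ▸ k3)
    exact h (f x) (f x') (f w) (f y) g6 g8 g7 k1 k2 k3
  · exact h

end Pool.Agent.Helper73.DU
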