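import Pool.Agent.Helper73.DU.Core5

/-! Project DU: the core pair. -/

set_option autoImplicit false

universe u

namespace Pool.Agent.Helper73.DU

variable {P : Type u} [PartialOrder P]

/-- a core pair whose middle is upper moves down -/
theorem Dat5.corePair (T : Dat5 P) {d Y : P} (hd : T.ExD Y d) (hb : T.be Y ≤ Y)
    (hY : T.dual.ExD d Y) (hc : d ≤ T.cc d) (hds : d ≤ T.s) (hsY : T.s ≤ Y)
    (hU : T.bb d Y ∈ T.U) :
    ∃ e Ye : P, T.ExD (T.bb d Y) e ∧ T.dual.ExD e Ye ∧ e ≤ d ∧ ¬ T.r e d ∧ Ye ≤ Y ∧ ¬ T.r Ye Y ∧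
      T.bb e Y ∈ T.U ∧ T.r (T.bb e Y) (T.bb d Y) ∧ T.r (T.bb e Y) Ye ∧
      ((T.s ∈ T.D ∧ T.r d T.s) ∨ (T.s ∈ T.U ∧ T.r T.s Ye)) := by
  have hdD : d ∈ T.D := hd.memD
  have hYU : Y ∈ T.U := hd.memU
  have hdY : d < Y := T.lt_DU hdD hYU (hds.trans hsY)
  have hcY : T.cc d ≤ Y := (T.dual.exit_le hY hc).1
  have h1 : d < T.bb d Y := T.lt_bb hdD hdY hd hb
  have h4 : T.bb d Y ≤ T.cc d := T.b4 d hdD Y hYU hdY
  have h2 : T.bb d Y < Y := T.bb_lt hdD hYU hdY (h4.trans hcY)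
  have h3 : T.be Y ≤ T.bb d Y := T.b1 d hdD Y hYU hdY
  have hbv : T.be (T.bb d Y) ≤ T.bb d Y := (T.bm _ hU Y hYU h2.le).trans h3
  have hrv : ¬ T.r (T.bb d Y) Y := T.f_bb_ne hdD hYU hdY
  have hdb : d ≤ T.be Y := (T.exit_le hd hb).1
  obtain ⟨e, he⟩ := T.exists_exit _ hU hbv
  have heD : e ∈ T.D := he.memD
  have hebv : e ≤ T.be (T.bb d Y) := (T.exit_le he hbv).1
  have hev : e < T.bb d Y := T.lt_DU heD hU (hebv.trans hbv)
  have hes : e ≤ T.s := T.exit_le_s he hbv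
  have heY : e < Y := hev.trans h2
  by_cases hr : T.r e d
  · exfalso
    have g1 : e < T.bb e (T.bb d Y) := T.lt_bb heD hev he hbv
    have g2 : T.bb e (T.bb d Y) ≤ T.bb d Y := T.b5 e heD d hdD hr _ hU Y hYU hev hdY h2.le
    rcases T.cov (T.bb e (T.bb d Y)) with hD1 | hU1
    · have g3 : T.bb e (T.bb d Y) ≤ T.cc e := T.b4 e heD _ hU hev
      have g4 : T.bb e (T.bb d Y) ≤ T.cc (T.bb e (T.bb d Y)) :=
        g3.trans (T.cm e heD _ hD1 g1.le)
      obtain ⟨Y1, hY1⟩ := T.dual.exists_exit _ hD1 g4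
      have hcc : T.cc d = T.cc e := T.rc d hdD e heD (T.rs _ _ hr)
      have hYe : T.dual.ExD e Y := Ex.congr hY heD hcc
      have g5 : T.bb e (T.bb d Y) < T.bb d Y := T.lt_DU hD1 hU g2
      have g6 : T.bb d Y ≤ T.cc e := by rw [← hcc]; exact h4
      have g7 : T.bb d Y ≤ Y1 := g6.trans ((T.cm e heD _ hD1 g1.le).trans
        (T.dual.exit_le hY1 g4).1)
      have g8 : T.bb e Y = T.bb d Y := T.b7 e heD d hdD hr Y hYU Y hYU (T.rr _) heY hdY
      refine T.keyM (a := e) (b := T.bb e (T.bb d Y)) (v := T.bb d Y) (Y := Y) (Yb := Y1) heD hD1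
        g1.le (T.f_ne_bb heD hU hev) hes hU g5 hYU hsY h2.le hrv hY1 g4
        (T.dual.cmp hYe hY1 (show e ≤ T.bb e (T.bb d Y) from g1.le) g3) g7 ?_ ?_
      · exact g8.ge.trans
          (T.b6 Y hYU Y hYU (T.rr _) e heD _ hD1 heY (g5.trans h2) g1.le)
      · exact T.b6 _ hU _ hU (T.rr _) e heD _ hD1 hev g5 g1.le
    · exact T.down hYU hsY _ e he hbv h2.le hrv hev g2 hU1
  · rcases T.cmp hd he h2.le h3 with hcm | hcm
    · exfalso
      have g4 : e ≤ T.cc e := hes.trans (T.cs e heD)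
      obtain ⟨Y1, hY1⟩ := T.dual.exists_exit e heD g4
      have g7 : T.bb d Y ≤ Y1 := h4.trans ((T.cm d hdD e heD hcm).trans
        (T.dual.exit_le hY1 g4).1)
      exact T.keyM (a := d) (b := e) (v := T.bb d Y) (Y := Y) (Yb := Y1) hdD heD hcm
        (fun h => hr (T.rs _ _ h)) hds hU hev hYU hsY h2.le hrv hY1 g4
        (T.dual.cmp hY hY1 (show d ≤ e from hcm) (hes.trans (T.cs d hdD))) g7
        (T.b6 Y hYU Y hYU (T.rr _) d hdD e heD hdY heY hcm)
        (hebv.trans (T.b1 e heD _ hU hev))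
    · have g1 : e < T.bb e (T.bb d Y) := T.lt_bb heD hev he hbv
      have g2 : T.bb e (T.bb d Y) ≤ T.bb d Y := T.mono heD hdD hU hYU hev hdY hcm h2.le
      rcases T.cov (T.bb e (T.bb d Y)) with hD1 | hU1
      swap
      · exact (T.down hYU hsY _ e he hbv h2.le hrv hev g2 hU1).elim
      have g3 : T.bb e (T.bb d Y) < T.bb d Y := T.lt_DU hD1 hU g2
      have hre : ¬ T.r e (T.bb e (T.bb d Y)) := T.f_ne_bb heD hU hev
      have g4 : T.bb e (T.bb d Y) ≤ T.cc e := T.b4 e heD _ hU hev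
      have g5 : T.bb e (T.bb d Y) ≤ T.cc (T.bb e (T.bb d Y)) := g4.trans (T.cm e heD _ hD1 g1.le)
      have g6 : T.bb e (T.bb d Y) ≤ T.bb (T.bb e (T.bb d Y)) (T.bb d Y) :=
        T.b6 _ hU _ hU (T.rr _) e heD _ hD1 hev g3 g1.le
      have k1 : d ≤ T.bb e Y := hdb.trans (T.b1 e heD Y hYU heY)
      have k2 : T.bb e Y ≤ T.bb d Y := T.b6 Y hYU Y hYU (T.rr _) e heD d hdD heY hdY hcm
      have k3 : T.bb e (T.bb d Y) ≤ T.bb e Y :=
        T.b5 e heD e heD (T.rr _) _ hU Y hYU hev heY h2.le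
      rcases T.cov (T.bb e Y) with hhD | hhU
      · exfalso
        have r1 : T.r d (T.bb e Y) := by
          by_contra hh
          exact T.n1 e heD d hdD _ hhD _ hU Y hYU hcm k1 k2 h2.le hes hsY hr hh hrv
        have r2 : T.r (T.bb e (T.bb d Y)) (T.bb e Y) := by
          by_contra hh
          exact T.n1 e heD _ hD1 _ hhD _ hU Y hYU g1.le k3 k2 h2.le hes hsY hre hh hrv
        have r3 : T.r (T.bb e (T.bb d Y)) d := T.rt _ _ _ r2 (T.rs _ _ r1)
        have m1 : T.bb (T.bb e (T.bb d Y)) (T.bb d Y) = T.bb d (T.bb d Y) :=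
          T.b7 _ hD1 d hdD r3 _ hU _ hU (T.rr _) g3 h1
        have m2 : T.bb (T.bb e (T.bb d Y)) (T.bb d Y) ≤ T.bb d Y := by
          rw [m1]
          exact T.b5 d hdD d hdD (T.rr _) _ hU Y hYU h1 hdY h2.le
        rcases T.cov (T.bb (T.bb e (T.bb d Y)) (T.bb d Y)) with hD' | hU'
        · exact T.n1 e heD _ hD1 _ hD' _ hU Y hYU g1.le g6 m2 h2.le hes hsY hre
            (T.f_ne_bb hD1 hU g3) hrv
        · exact T.n2 e heD _ hD1 _ hU' _ hU Y hYU g1.le g6 m2 h2.le hes hsY hre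
            (T.f_bb_ne hD1 hU g3) hrv
      · have r1 : T.r (T.bb e Y) (T.bb d Y) := by
          by_contra hh
          exact T.n2 e heD d hdD _ hhU _ hU Y hYU hcm k1 k2 h2.le hes hsY hr hh hrv
        have hce : e ≤ T.cc e := hes.trans (T.cs e heD)
        obtain ⟨Ye, hYe⟩ := T.dual.exists_exit e heD hce
        have hYeU : Ye ∈ T.U := hYe.memD
        have hcYe : T.cc e ≤ Ye := (T.dual.exit_le hYe hce).1
        have hsYe : T.s ≤ Ye := T.dual.exit_le_s hYe hce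
        have m1 : T.bb e Y ≤ T.cc e := T.b4 e heD Y hYU heY
        have m2 : T.bb e Y ≤ Ye := m1.trans hcYe
        have m3 : T.bb e (T.bb d Y) < T.bb e Y := T.lt_DU hD1 hhU k3
        have hcomp := T.dual.cmp hYe hY (show e ≤ d from hcm) (hds.trans (T.cs e heD))
        have hrh : ¬ T.r (T.bb e Y) Y := T.f_bb_ne heD hYU heY
        by_cases hrY : T.r Ye Y
        · exfalso
          obtain ⟨Y2, hY2⟩ := T.dual.exists_exit _ hD1 g5
          have hrh' : ¬ T.r (T.bb e Y) Ye := fun h => hrh (T.rt _ _ _ h hrY)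
          refine T.keyM (a := e) (b := T.bb e (T.bb d Y)) (v := T.bb e Y) (Y := Ye) (Yb := Y2)
            heD hD1 g1.le hre hes hhU m3 hYeU hsYe m2 hrh' hY2 g5
            (T.dual.cmp hYe hY2 (show e ≤ T.bb e (T.bb d Y) from g1.le) g4)
            (m1.trans ((T.cm e heD _ hD1 g1.le).trans (T.dual.exit_le hY2 g5).1)) ?_ ?_
          · have q : T.bb e Y = T.bb e Ye :=
              T.b7 e heD e heD (T.rr _) Y hYU Ye hYeU (T.rs _ _ hrY) heY (heY_of m3 g1 m2)
            have q2 : T.bb e Ye ≤ T.bb (T.bb e (T.bb d Y)) Ye :=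
              T.b6 Ye hYeU Ye hYeU (T.rr _) e heD _ hD1 (heY_of m3 g1 m2) (m3.trans_le m2) g1.le
            exact q.le.trans q2
          · have q : T.bb (T.bb e (T.bb d Y)) (T.bb e Y) =
                T.bb (T.bb e (T.bb d Y)) (T.bb d Y) :=
              T.b7 _ hD1 _ hD1 (T.rr _) _ hhU _ hU r1 m3 g3
            rw [q]
            exact g6
        · rcases hcomp with hcp | hcp
          · exact (T.n2 e heD d hdD _ hU Y hYU Ye hYeU hcm h1.le h2.le hcp hes hsYe hr hrv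
              (fun h => hrY (T.rs _ _ h))).elim
          · have hcp : @LE.le P _ Ye Y := hcp
            have r2 : T.r (T.bb e Y) Ye := by
              by_contra hh
              exact T.n2 e heD d hdD _ hhU Ye hYeU Y hYU hcm k1 m2 hcp hes hsY hr hh hrY
            refine ⟨e, Ye, he, hYe, hcm, hr, hcp, hrY, hhU, r1, r2, ?_⟩
            rcases T.cov T.s with hsD | hsU
            · left
              refine ⟨hsD, ?_⟩
              by_contra hh
              exact T.n1 e heD d hdD T.s hsD Ye hYeU Y hYU hcm hds hsYe hcp hes hsY hr hh hrY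
            · right
              refine ⟨hsU, ?_⟩
              by_contra hh
              exact T.n2 e heD d hdD T.s hsU Ye hYeU Y hYU hcm hds hsYe hcp hes hsY hr hh hrY
where
  heY_of {a b c y : P} (h1 : b < c) (h2 : a < b) (h3 : c ≤ y) : a < y := (h2.trans h1).trans_le h3

end Pool.Agent.Helper73.DU
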