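import Pool.Agent.Helper73.DU.Main

/-! Project DU: a special element; only chains ending at a point whose value has no join with `s`
matter. -/

set_option autoImplicit false

universe u

namespace Pool.Agent.Helper73.DU

theorem special_high (P : Type u) [PartialOrder P]
    (hfin : ∃ n : ℕ, ∀ c : Finset P, IsChain (· ≤ ·) (c : Set P) → c.card ≤ n) (s : P)
    (h1 : ∀ x : P, (∃ z : P, IsLUB ({s, x} : Set P) z) ∨ (∃ z : P, IsGLB ({s, x} : Set P) z))
    (h2 : ∀ x y : P, x < y → (¬ ∃ z : P, IsGLB ({s, x} : Set P) z) →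
      ∀ m : P, IsGLB ({s, y} : Set P) m → ∃ z : P, IsLUB ({m, x} : Set P) z)
    (f : P → P) (hf : Monotone f)
    (hc : ∀ x x' w y : P, x < x' → x' < w → w < y → x ≤ s → s ≤ y → f x < f x' → f w < f y →
      (¬ ∃ z : P, IsGLB ({s, f x} : Set P) z) → (¬ ∃ z : P, IsGLB ({s, f x'} : Set P) z) →
      (∃ z : P, IsGLB ({s, f w} : Set P) z) → ∃ z : P, IsLUB ({s, f y} : Set P) z) :
    ∃ x, f x = x := by
  classical
  let A : Set P := {x | (¬ ∃ z : P, IsGLB ({s, f x} : Set P) z) ∨
    ∀ y, x ≤ y → ∃ z : P, IsLUB ({s, f y} : Set P) z}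
  let M : P → P := fun y => if h : ∃ z : P, IsGLB ({s, y} : Set P) z then h.choose else s
  have hM : ∀ y, (∃ z : P, IsGLB ({s, y} : Set P) z) → IsGLB ({s, y} : Set P) (M y) := by
    intro y hy
    simp only [M, dif_pos hy]
    exact hy.choose_spec
  have hA0 : ∀ w, w ∉ A → (∃ z : P, IsGLB ({s, f w} : Set P) z) ∧
      ∃ y, w ≤ y ∧ ¬ ∃ z : P, IsLUB ({s, f y} : Set P) z := by
    intro w hw
    by_contra h
    apply hw
    by_cases h3 : ∃ z : P, IsGLB ({s, f w} : Set P) z
    · right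
      intro y hy
      by_contra h4
      exact h ⟨h3, y, hy, h4⟩
    · exact Or.inl h3
  have hA : ∀ w, w ∉ A → IsGLB ({s, f w} : Set P) (M (f w)) := fun w hw => hM _ (hA0 w hw).1
  have hlow : ∀ x w, x ∈ A → w ∉ A → x < w → ¬ ∃ z : P, IsGLB ({s, f x} : Set P) z := by
    intro x w hx hw hxw
    rcases hx with hx | hx
    · exact hx
    · exact (hw (Or.inr fun y hy => hx y (hxw.le.trans hy))).elim
  refine main P hfin s f hf A (fun w => M (f w)) ?_ ?_ ?_ ?_ ?_
  · intro x hx
    rcases hx with hx | hx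
    · rcases h1 (f x) with h | h
      · exact h
      · exact absurd h hx
    · exact hx x le_rfl
  · intro w hw
    exact ⟨(hA w hw).1 (by simp), (hA w hw).1 (by simp)⟩
  · intro v w hv hw h
    refine (hA w hw).2 ?_
    rintro z (rfl | rfl)
    · exact (hA v hv).1 (by simp)
    · exact ((hA v hv).1 (by simp) : M (f v) ≤ f v).trans (hf h)
  · intro x w hx hw hxw _
    have hxl := hlow x w hx hw hxw
    have hlt : f x < f w := by
      refine lt_of_le_of_ne (hf hxw.le) ?_
      intro he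
      exact hxl (he ▸ (hA0 w hw).1)
    exact h2 (f x) (f w) hlt hxl _ (hA w hw)
  · intro x x' w w' hx hx' hw hw' g1 g2 g3 g4 g5 g6 g7
    have g8 : f w < f w' := by
      rcases g7 with g7 | g7
      · exact g7
      · refine lt_of_le_of_ne (hf g3.le) ?_
        intro he
        have : M (f w) < M (f w') := g7
        rw [he] at this
        exact lt_irrefl _ this
    obtain ⟨y, hy, hny⟩ := (hA0 w' hw').2
    exact hny (hc x x' w y g1 g2 (g3.trans_le hy) g4 (g5.trans hy) g6 (g8.trans_le (hf hy))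
      (hlow x w hx hw (g1.trans g2)) (hlow x' w hx' hw g2) (hA0 w hw).1)

/-- the case of a special element, in terms of the values or of `P` -/
theorem special_high' (P : Type u) [PartialOrder P]
    (hfin : ∃ n : ℕ, ∀ c : Finset P, IsChain (· ≤ ·) (c : Set P) → c.card ≤ n) (s : P)
    (h1 : ∀ x : P, (∃ z : P, IsLUB ({s, x} : Set P) z) ∨ (∃ z : P, IsGLB ({s, x} : Set P) z))
    (h2 : ∀ x y : P, x < y → (¬ ∃ z : P, IsGLB ({s, x} : Set P) z) →
      ∀ m : P, IsGLB ({s, y} : Set P) m → ∃ z : P, IsLUB ({m, x} : Set P) z)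
    (f : P → P) (hf : Monotone f)
    (hc : (∀ a a' c e : P, a < a' → a' < c → c < e → (¬ ∃ z : P, IsGLB ({s, a} : Set P) z) →
        (¬ ∃ z : P, IsGLB ({s, a'} : Set P) z) → (∃ z : P, IsGLB ({s, c} : Set P) z) →
        ∃ z : P, IsLUB ({s, e} : Set P) z) ∨
      (∀ x x' w y : P, x < x' → x' < w → w < y → x ≤ s → s ≤ y → f x < f x' → f w < f y →
        (¬ ∃ z : P, IsGLB ({s, f x} : Set P) z) → (¬ ∃ z : P, IsGLB ({s, f x'} : Set P) z) →
        (∃ z : P, IsGLB ({s, f w} : Set P) z) → ∃ z : P, IsLUB ({s, f y} : Set P) z)) :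
    ∃ x, f x = x := by
  refine special_high P hfin s h1 h2 f hf ?_
  rcases hc with h | h
  · intro x x' w y g1 g2 g3 _ _ g6 g7 k1 k2 k3
    have g8 : f x' < f w := by
      refine lt_of_le_of_ne (hf g2.le) ?_
      intro he
      exact k2 (he ▸ k3)
    exact h (f x) (f x') (f w) (f y) g6 g8 g7 k1 k2 k3
  · exact h

end Pool.Agent.Helper73.DU
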